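import Pool.Agent.H863.K4.Minor

/-!
# The class of matroids without `M(K₄)`-minor is complete
-/

namespace Pool.Agent.H863.K4

open Set Pool.Agent.Helper666.FinGen
open scoped Matroid

theorem hasK4_mem_ground {α : Type} (M : Matroid α) {X : Set α} {g : Fin 6 → α}
    (hg : ∀ S : Finset (Fin 6), rk M (X ∪ g '' S) = rk M X + kap S) (i : Fin 6) : g i ∈ M.E := by
  by_contra hi
  have a1 := hg {i}
  rw [kap_one, Finset.coe_singleton, Set.image_singleton, Set.union_singleton,
    ← rk_inter_ground M (insert (g i) X), Set.insert_inter_of_notMem hi, rk_inter_ground] at a1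
  linarith

theorem hasK4_dual {α : Type} (M : Matroid α) [M.Finite] (h : HasK4 (rk M)) : HasK4 (rk M✶) := by
  obtain ⟨X, g, hg⟩ := h
  have hinj := HasK4.injective hg
  have hnot := HasK4.notMem hg
  have hE := hasK4_mem_ground M hg
  have key : ∀ S : Finset (Fin 6), rk M✶ (M.E \ (X ∪ range g) ∪ g '' S) =
      rk M✶ (M.E \ (X ∪ range g)) + ((S.card : ℤ) + kap Sᶜ - 3) := by
    intro S
    have hSE : g '' (↑S : Set (Fin 6)) ⊆ M.E := by
      rintro x ⟨i, _, rfl⟩; exact hE i
    have e1 : M.E \ (M.E \ (X ∪ range g) ∪ g '' S) = (X ∪ g '' (↑(Sᶜ) : Set (Fin 6))) ∩ M.E := by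
      ext x
      simp only [Set.mem_sdiff, Set.mem_union, Set.mem_inter_iff, Set.mem_range, Set.mem_image,
        Finset.mem_coe, Finset.coe_compl, Set.mem_compl_iff]
      constructor
      · rintro ⟨hx, h2⟩
        refine ⟨?_, hx⟩
        by_contra hcon
        apply h2
        by_cases hr : ∃ i, g i = x
        · obtain ⟨i, rfl⟩ := hr
          by_cases hi : i ∈ S
          · exact Or.inr ⟨i, hi, rfl⟩
          · exact absurd (Or.inr ⟨i, hi, rfl⟩) hcon
        · refine Or.inl ⟨hx, ?_⟩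
          rintro (h | h)
          · exact hcon (Or.inl h)
          · exact hr h
      · rintro ⟨hx | ⟨i, hi, rfl⟩, hxE⟩
        · refine ⟨hxE, ?_⟩
          rintro (h | ⟨i, _, rfl⟩)
          · exact h.2 (Or.inl hx)
          · exact hnot i hx
        · refine ⟨hxE, ?_⟩
          rintro (h | ⟨j, hj, hji⟩)
          · exact h.2 (Or.inr ⟨i, rfl⟩)
          · rw [hinj hji] at hj
            exact hi hj
    have e0 : M.E \ (M.E \ (X ∪ range g)) = (X ∪ range g) ∩ M.E := by
      rw [Set.sdiff_sdiff_right_self, Set.inter_comm]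
    have e2 : (M.E \ (X ∪ range g) ∪ g '' S).ncard = (M.E \ (X ∪ range g)).ncard + S.card := by
      rw [Set.ncard_union_eq _ (M.ground_finite.subset sdiff_subset) (Set.toFinite _),
        Set.ncard_image_of_injective _ hinj, Set.ncard_coe_finset]
      rw [Set.disjoint_left]
      rintro x hx ⟨i, _, rfl⟩
      exact hx.2 (Or.inr ⟨i, rfl⟩)
    have e3 : rk M (X ∪ range g) = rk M X + 3 := by
      have a1 := hg Finset.univ
      have k1 : kap Finset.univ = 3 := by decide
      rw [k1, Finset.coe_univ, Set.image_univ] at a1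
      exact a1
    rw [rk_dual M (Set.union_subset sdiff_subset hSE), rk_dual M sdiff_subset, e1, e0, e2,
      rk_inter_ground, rk_inter_ground, hg, e3]
    push_cast
    ring
  refine ⟨M.E \ (X ∪ range g), g ∘ tau, fun S => ?_⟩
  rw [comp_image, key, kap_dual]

theorem hasK4_truncation {α : Type} {M N : Matroid α} [M.Finite] {k : ℕ}
    (hN : IsTruncation M k N) (h : HasK4 (rk N)) : HasK4 (rk M) := by
  obtain ⟨X, g, hg⟩ := h
  simp only [rk_truncation hN] at hg
  have h1 := hg Finset.univ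
  have k1 : kap Finset.univ = 3 := by decide
  rw [k1] at h1
  have h2 := min_le_right (rk M (X ∪ g '' (↑(Finset.univ : Finset (Fin 6)) : Set (Fin 6)))) (k : ℤ)
  have hX : rk M X ≤ k - 3 := by
    rcases min_cases (rk M X) (k : ℤ) with ⟨e, _⟩ | ⟨e, _⟩
    · rw [e] at h1; linarith
    · rw [e] at h1; linarith
  have hmin : min (rk M X) (k : ℤ) = rk M X := min_eq_left (by linarith)
  rw [hmin] at hg h1
  refine hasK4_of (isRk_rk M) X g ?_ ?_ ?_
  · intro P hP _
    have a1 := hg P
    rw [kap_pair P hP] at a1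
    have := min_le_left (rk M (X ∪ g '' P)) (k : ℤ)
    linarith
  · intro L hL
    have a1 := hg L
    rw [kap_line L hL] at a1
    rcases min_cases (rk M (X ∪ g '' L)) (k : ℤ) with ⟨e, _⟩ | ⟨e, _⟩
    · rw [e] at a1; linarith
    · rw [e] at a1; linarith
  · have := min_le_left (rk M (X ∪ g '' (↑(Finset.univ : Finset (Fin 6)) : Set (Fin 6)))) (k : ℤ)
    linarith

theorem kap_connected : ∀ I : Finset (Fin 6), kap I + kap Iᶜ = 3 → I = ∅ ∨ I = Finset.univ := by
  decide

theorem hasK4_of_all_inl {α β : Type} {M : Matroid α} {N : Matroid β} [M.Finite] [N.Finite]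
    {X : Set (α ⊕ β)} {g : Fin 6 → α ⊕ β}
    (hg : ∀ S : Finset (Fin 6), rk (M.sum N) (X ∪ g '' S) = rk (M.sum N) X + kap S)
    (hall : ∀ i, ∃ t, g i = Sum.inl t) : HasK4 (rk M) := by
  choose g' hg' using hall
  refine ⟨Sum.inl ⁻¹' X, g', fun S => ?_⟩
  have a1 := hg S
  rw [rk_sum, rk_sum] at a1
  have e1 : (Sum.inl ⁻¹' (X ∪ g '' (↑S : Set (Fin 6))) : Set α) =
      Sum.inl ⁻¹' X ∪ g' '' (↑S : Set (Fin 6)) := by
    ext y
    simp only [Set.mem_preimage, Set.mem_union, Set.mem_image, hg', Sum.inl.injEq]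
  have e2 : (Sum.inr ⁻¹' (X ∪ g '' (↑S : Set (Fin 6))) : Set β) = Sum.inr ⁻¹' X := by
    ext y
    simp [hg']
  rw [e1, e2] at a1
  linarith

theorem hasK4_of_all_inr {α β : Type} {M : Matroid α} {N : Matroid β} [M.Finite] [N.Finite]
    {X : Set (α ⊕ β)} {g : Fin 6 → α ⊕ β}
    (hg : ∀ S : Finset (Fin 6), rk (M.sum N) (X ∪ g '' S) = rk (M.sum N) X + kap S)
    (hall : ∀ i, ∃ t, g i = Sum.inr t) : HasK4 (rk N) := by
  choose g' hg' using hall
  refine ⟨Sum.inr ⁻¹' X, g', fun S => ?_⟩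
  have a1 := hg S
  rw [rk_sum, rk_sum] at a1
  have e1 : (Sum.inr ⁻¹' (X ∪ g '' (↑S : Set (Fin 6))) : Set β) =
      Sum.inr ⁻¹' X ∪ g' '' (↑S : Set (Fin 6)) := by
    ext y
    simp only [Set.mem_preimage, Set.mem_union, Set.mem_image, hg', Sum.inr.injEq]
  have e2 : (Sum.inl ⁻¹' (X ∪ g '' (↑S : Set (Fin 6))) : Set α) = Sum.inl ⁻¹' X := by
    ext y
    simp [hg']
  rw [e1, e2] at a1
  linarith

theorem hasK4_sum {α β : Type} (M : Matroid α) (N : Matroid β) [M.Finite] [N.Finite]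
    (h : HasK4 (rk (M.sum N))) : HasK4 (rk M) ∨ HasK4 (rk N) := by
  classical
  obtain ⟨X, g, hg⟩ := h
  let I : Finset (Fin 6) := Finset.univ.filter (fun i => ∃ t, g i = Sum.inl t)
  have hI : ∀ i, i ∈ I ↔ ∃ t, g i = Sum.inl t := by intro i; simp [I]
  have hIc : ∀ i, i ∉ I → ∃ t, g i = Sum.inr t := by
    intro i hi
    rcases hgi : g i with t | t
    · exact absurd ((hI i).mpr ⟨t, hgi⟩) hi
    · exact ⟨t, rfl⟩
  have hsum : ∀ S : Finset (Fin 6), rk M (Sum.inl ⁻¹' (X ∪ g '' (↑S : Set (Fin 6)))) +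
      rk N (Sum.inr ⁻¹' (X ∪ g '' (↑S : Set (Fin 6)))) = rk M (Sum.inl ⁻¹' X) +
      rk N (Sum.inr ⁻¹' X) + kap S := by
    intro S
    have a1 := hg S
    rwa [rk_sum, rk_sum] at a1
  have e1 : (Sum.inl ⁻¹' (X ∪ g '' (↑(Finset.univ : Finset (Fin 6)) : Set (Fin 6))) : Set α) =
      Sum.inl ⁻¹' (X ∪ g '' (↑I : Set (Fin 6))) := by
    ext y
    simp only [Set.mem_preimage, Set.mem_union, Set.mem_image, Finset.coe_univ, Set.mem_univ,
      true_and, Finset.mem_coe]
    constructor
    · rintro (h | ⟨i, hi⟩)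
      · exact Or.inl h
      · exact Or.inr ⟨i, (hI i).mpr ⟨y, hi⟩, hi⟩
    · rintro (h | ⟨i, _, hi⟩)
      · exact Or.inl h
      · exact Or.inr ⟨i, hi⟩
  have e2 : (Sum.inr ⁻¹' (X ∪ g '' (↑(Finset.univ : Finset (Fin 6)) : Set (Fin 6))) : Set β) =
      Sum.inr ⁻¹' (X ∪ g '' (↑Iᶜ : Set (Fin 6))) := by
    ext y
    simp only [Set.mem_preimage, Set.mem_union, Set.mem_image, Finset.coe_univ, Set.mem_univ,
      true_and, Finset.mem_coe, Finset.mem_compl]
    constructor
    · rintro (h | ⟨i, hi⟩)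
      · exact Or.inl h
      · refine Or.inr ⟨i, ?_, hi⟩
        intro hiI
        obtain ⟨t, ht⟩ := (hI i).mp hiI
        rw [hi] at ht
        cases ht
    · rintro (h | ⟨i, _, hi⟩)
      · exact Or.inl h
      · exact Or.inr ⟨i, hi⟩
  have e3 : (Sum.inr ⁻¹' (X ∪ g '' (↑I : Set (Fin 6))) : Set β) = Sum.inr ⁻¹' X := by
    ext y
    simp only [Set.mem_preimage, Set.mem_union, Set.mem_image, Finset.mem_coe]
    constructor
    · rintro (h | ⟨i, hi, hi'⟩)
      · exact h
      · obtain ⟨t, ht⟩ := (hI i).mp hi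
        rw [hi'] at ht
        cases ht
    · exact Or.inl
  have e4 : (Sum.inl ⁻¹' (X ∪ g '' (↑Iᶜ : Set (Fin 6))) : Set α) = Sum.inl ⁻¹' X := by
    ext y
    simp only [Set.mem_preimage, Set.mem_union, Set.mem_image, Finset.mem_coe, Finset.mem_compl]
    constructor
    · rintro (h | ⟨i, hi, hi'⟩)
      · exact h
      · exact absurd ((hI i).mpr ⟨y, hi'⟩) hi
    · exact Or.inl
  have s1 := hsum Finset.univ
  have s2 := hsum I
  have s3 := hsum Iᶜ
  rw [e1, e2] at s1
  rw [e3] at s2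
  rw [e4] at s3
  have k1 : kap Finset.univ = 3 := by decide
  rw [k1] at s1
  rcases kap_connected I (by linarith) with h | h
  · right
    refine hasK4_of_all_inr hg (fun i => hIc i ?_)
    rw [h]; simp
  · left
    refine hasK4_of_all_inl hg (fun i => (hI i).mp ?_)
    rw [h]; simp

theorem rk_iso {α β : Type} {M : Matroid α} {N : Matroid β} [M.Finite] [N.Finite]
    (e : M.E ≃ N.E)
    (he : ∀ I : Set M.E, M.Indep (Subtype.val '' I) ↔ N.Indep (Subtype.val '' (e '' I)))
    (S : Set M.E) : rk M (Subtype.val '' S) = rk N (Subtype.val '' (e '' S)) := by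
  have hcard : ∀ I : Set M.E, (Subtype.val '' I : Set α).ncard =
      (Subtype.val '' (e '' I) : Set β).ncard := by
    intro I
    rw [Set.ncard_image_of_injective _ Subtype.val_injective,
      Set.ncard_image_of_injective _ Subtype.val_injective,
      Set.ncard_image_of_injective _ e.injective]
  apply le_antisymm
  · obtain ⟨I, hIS, hI, hr⟩ := exists_indep M (Subtype.val '' S)
    obtain ⟨J, hJS, rfl⟩ := Set.subset_image_iff.mp hIS
    rw [← hr, hcard]
    exact ncard_le_rk N ((he J).mp hI) (Set.image_mono (Set.image_mono hJS))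
  · obtain ⟨I, hIS, hI, hr⟩ := exists_indep N (Subtype.val '' (e '' S))
    rw [← Set.image_comp] at hIS
    obtain ⟨J, hJS, rfl⟩ := Set.subset_image_iff.mp hIS
    rw [Set.image_comp] at hI hr
    rw [← hr, ← hcard]
    exact ncard_le_rk M ((he J).mpr hI) (Set.image_mono hJS)

theorem hasK4_iso {α β : Type} {M : Matroid α} {N : Matroid β} [M.Finite] [N.Finite]
    (h : Isomorphic M N) (hN : HasK4 (rk N)) : HasK4 (rk M) := by
  obtain ⟨e, he⟩ := h
  obtain ⟨X, g, hg⟩ := hN
  have hE := hasK4_mem_ground N hg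
  have key : ∀ Z : Set β, rk M (Subtype.val '' (e.symm '' (Subtype.val ⁻¹' Z))) = rk N Z := by
    intro Z
    rw [rk_iso e he, ← Set.image_comp e e.symm]
    have : (⇑e ∘ ⇑e.symm) = id := by funext x; simp
    rw [this, Set.image_id, Subtype.image_preimage_coe, Set.inter_comm, rk_inter_ground]
  refine ⟨Subtype.val '' (e.symm '' (Subtype.val ⁻¹' X)), fun i => (e.symm ⟨g i, hE i⟩ : α),
    fun S => ?_⟩
  have h1 : (Subtype.val '' (e.symm '' (Subtype.val ⁻¹' X)) : Set α) ∪
      (fun i => (e.symm ⟨g i, hE i⟩ : α)) '' (↑S : Set (Fin 6)) =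
      Subtype.val '' (e.symm '' (Subtype.val ⁻¹' (X ∪ g '' (↑S : Set (Fin 6))))) := by
    ext x
    constructor
    · rintro (⟨y, ⟨z, hz, rfl⟩, rfl⟩ | ⟨i, hi, rfl⟩)
      · exact ⟨_, ⟨z, Or.inl hz, rfl⟩, rfl⟩
      · exact ⟨_, ⟨⟨g i, hE i⟩, Or.inr ⟨i, hi, rfl⟩, rfl⟩, rfl⟩
    · rintro ⟨y, ⟨z, hz | ⟨i, hi, hiz⟩, rfl⟩, rfl⟩
      · exact Or.inl ⟨_, ⟨z, hz, rfl⟩, rfl⟩
      · refine Or.inr ⟨i, hi, ?_⟩
        have : (⟨g i, hE i⟩ : N.E) = z := Subtype.ext hiz
        show ((e.symm ⟨g i, hE i⟩ : M.E) : α) = _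
        rw [this]
  rw [h1, key, key, hg]

theorem noMK4Minor_isComplete : IsComplete NoMK4Minor where
  finite _ h := h.1
  iso := by
    intro α β M N hM hiso
    have := hM.1
    have : N.Finite := by
      obtain ⟨e, _⟩ := hiso
      have : Finite M.E := M.ground_finite
      have : Finite N.E := Finite.of_equiv _ e
      exact ⟨Set.toFinite _⟩
    rw [noMK4Minor_iff] at hM ⊢
    exact fun h => hM (hasK4_iso hiso h)
  restrict := by
    intro α M A hM hA
    have := hM.1
    refine ⟨⟨M.ground_finite.subset hA⟩, fun N hN => hM.2 N (hN.trans ?_)⟩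
    exact ⟨∅, M.E \ A, by rw [Matroid.contract_empty, Matroid.delete_compl hA]⟩
  contract := by
    intro α M A hM hA
    have := hM.1
    refine ⟨contract_finite M A, fun N hN => hM.2 N (hN.trans ?_)⟩
    exact ⟨A, ∅, by rw [Matroid.delete_empty]⟩
  dual := by
    intro α M hM
    have := hM.1
    rw [noMK4Minor_iff] at hM ⊢
    intro h
    have := hasK4_dual _ h
    rw [Matroid.dual_dual] at this
    exact hM this
  sum := by
    intro α β M N hM hN
    have := hM.1
    have := hN.1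
    have : (M.sum N).Finite := ⟨by
      rw [Matroid.sum_ground]
      exact (M.ground_finite.image _).union (N.ground_finite.image _)⟩
    rw [noMK4Minor_iff] at hM hN ⊢
    intro h
    rcases hasK4_sum M N h with h | h
    · exact hM h
    · exact hN h
  truncate := by
    intro α M N k hM hN
    have := hM.1
    have := truncation_finite hN
    rw [noMK4Minor_iff] at hM ⊢
    exact fun h => hM (hasK4_truncation hN h)
  induce := by
    intro T hT Γ M₀ A N hM hN
    have := finite_matroid M₀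
    have := finite_matroid N
    rw [noMK4Minor_iff] at hM ⊢
    exact fun h => hM (hasK4_of_induced hN h)

theorem noMK4Minor_largest (C : MatClass) (hC : IsComplete C)
    (hav : ∀ (α : Type) (M : Matroid α), C α M → ¬ IsMK4 M) (α : Type) (M : Matroid α)
    (hM : C α M) : NoMK4Minor α M := by
  refine ⟨hC.finite M hM, ?_⟩
  rintro N ⟨X, Y, rfl⟩
  apply hav
  have h1 : C α (M ／ X) := by
    rw [← Matroid.contract_inter_ground_eq]
    exact hC.contract M (X ∩ M.E) hM Set.inter_subset_right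
  rw [Matroid.delete_eq_restrict]
  exact hC.restrict _ _ h1 Set.sdiff_subset

end Pool.Agent.H863.K4
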