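import Pool.Agent.H863.K4.Step2

/-!
# `M(K₄)`-minors and duality of rank functions
-/

namespace Pool.Agent.H863.K4

open Set

variable {U : Type}

theorem HasK4.injective {r : Set U → ℤ} {X : Set U} {g : Fin 6 → U}
    (h : ∀ S : Finset (Fin 6), r (X ∪ g '' S) = r X + kap S) : Function.Injective g := by
  intro i j hgij
  by_contra hij
  obtain ⟨k1, k2⟩ := kap_two_ne i j hij
  have a1 := h {i, j}
  have a2 := h {i}
  have a3 : g '' (↑({i, j} : Finset (Fin 6)) : Set (Fin 6)) =
      g '' (↑({i} : Finset (Fin 6)) : Set (Fin 6)) := by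
    simp [Set.image_insert_eq, hgij]
  rw [a3, a2, k1, k2] at a1
  linarith

theorem kap_one : ∀ i : Fin 6, kap {i} = 1 := by decide

theorem HasK4.notMem {r : Set U → ℤ} {X : Set U} {g : Fin 6 → U}
    (h : ∀ S : Finset (Fin 6), r (X ∪ g '' S) = r X + kap S) (i : Fin 6) : g i ∉ X := by
  intro hi
  have a1 := h {i}
  rw [kap_one, Finset.coe_singleton, Set.image_singleton, Set.union_singleton,
    Set.insert_eq_of_mem hi] at a1
  linarith

/-- the dual rank function on a finite set -/
noncomputable def dualF (r : Set U → ℤ) : Set U → ℤ := fun S => S.ncard + r Sᶜ - r univ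

theorem dualF_apply (r : Set U → ℤ) (S : Set U) : dualF r S = S.ncard + r Sᶜ - r univ := rfl

theorem dualF_dualF [Finite U] {r : Set U → ℤ} (h0 : r ∅ = 0) : dualF (dualF r) = r := by
  funext S
  rw [dualF_apply, dualF_apply, dualF_apply, compl_compl, Set.compl_univ, h0]
  have := Set.ncard_add_ncard_compl S
  have h' : (S.ncard : ℤ) + (Sᶜ).ncard = (univ : Set U).ncard := by
    rw [Set.ncard_univ]; exact_mod_cast this
  linarith

theorem IsRk.union_ncard [Finite U] {r : Set U → ℤ} (h : IsRk r) (S Y : Set U) :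
    r (S ∪ Y) ≤ r S + Y.ncard := by
  classical
  have key : ∀ Z : Finset U, r (S ∪ ↑Z) ≤ r S + Z.card := by
    intro Z
    induction Z using Finset.induction_on with
    | empty => simp
    | insert x Z hx ih =>
      have hc : ((insert x Z).card : ℤ) = Z.card + 1 := by
        rw [Finset.card_insert_of_notMem hx]; push_cast; ring
      rw [hc, Finset.coe_insert, Set.union_insert]
      have := h.unit (S ∪ ↑Z) x
      linarith
  have := key (Set.toFinite Y).toFinset
  rw [Set.Finite.coe_toFinset, ← Set.ncard_eq_toFinset_card Y] at this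
  exact this

theorem IsRk.dualF [Finite U] {r : Set U → ℤ} (h : IsRk r) : IsRk (dualF r) := by
  refine ⟨?_, ?_, ?_⟩
  · intro S T hST
    rw [dualF_apply, dualF_apply]
    have h1 := h.union_ncard Tᶜ (T \ S)
    have h2 : Tᶜ ∪ (T \ S) = Sᶜ := by
      ext x
      simp only [Set.mem_union, Set.mem_compl_iff, Set.mem_sdiff]
      constructor
      · rintro (hx | hx)
        · exact fun hx' => hx (hST hx')
        · exact hx.2
      · intro hx
        by_cases hx' : x ∈ T
        · exact Or.inr ⟨hx', hx⟩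
        · exact Or.inl hx'
    rw [h2] at h1
    have h3 : (T \ S).ncard + S.ncard = T.ncard := Set.ncard_sdiff_add_ncard_of_subset hST
    have h4 : ((T \ S).ncard : ℤ) + S.ncard = T.ncard := by exact_mod_cast h3
    linarith
  · intro S T
    rw [dualF_apply, dualF_apply, dualF_apply, dualF_apply, Set.compl_union, Set.compl_inter]
    have h1 := h.submod Sᶜ Tᶜ
    have h2 : (S ∪ T).ncard + (S ∩ T).ncard = S.ncard + T.ncard :=
      Set.ncard_union_add_ncard_inter S T
    have h3 : ((S ∪ T).ncard : ℤ) + (S ∩ T).ncard = S.ncard + T.ncard := by exact_mod_cast h2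
    linarith
  · intro S x
    rw [dualF_apply, dualF_apply]
    have h1 : r (insert x S)ᶜ ≤ r Sᶜ :=
      h.mono (Set.compl_subset_compl.mpr (Set.subset_insert _ _))
    have h2 : (insert x S).ncard ≤ S.ncard + 1 := Set.ncard_insert_le x S
    have h3 : ((insert x S).ncard : ℤ) ≤ S.ncard + 1 := by exact_mod_cast h2
    linarith

/-- the permutation of the six elements that exchanges opposite ones -/
def tau : Fin 6 → Fin 6 := ![5, 4, 3, 2, 1, 0]

theorem kap_dual : ∀ S : Finset (Fin 6),
    ((S.image tau).card : ℤ) + kap (S.image tau)ᶜ - 3 = kap S := by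
  decide

theorem HasK4.dual' [Finite U] {r : Set U → ℤ} (h : HasK4 r) : HasK4 (dualF r) := by
  obtain ⟨X, g, hg⟩ := h
  have hinj := HasK4.injective hg
  have hnot := HasK4.notMem hg
  have key : ∀ S : Finset (Fin 6), dualF r ((X ∪ range g)ᶜ ∪ g '' S) =
      dualF r (X ∪ range g)ᶜ + ((S.card : ℤ) + kap Sᶜ - 3) := by
    intro S
    have e1 : ((X ∪ range g)ᶜ ∪ g '' S)ᶜ = X ∪ g '' (↑(Sᶜ) : Set (Fin 6)) := by
      rw [Set.compl_union, compl_compl]
      ext x
      simp only [Set.mem_compl_iff, Set.mem_union, Set.mem_inter_iff, Set.mem_range, Set.mem_image,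
        Finset.mem_coe, Finset.coe_compl]
      constructor
      · rintro ⟨hx | ⟨i, rfl⟩, h2⟩
        · exact Or.inl hx
        · refine Or.inr ⟨i, fun hi => h2 ⟨i, hi, rfl⟩, rfl⟩
      · rintro (hx | ⟨i, hi, rfl⟩)
        · refine ⟨Or.inl hx, ?_⟩
          rintro ⟨i, _, rfl⟩
          exact hnot i hx
        · refine ⟨Or.inr ⟨i, rfl⟩, ?_⟩
          rintro ⟨j, hj, hji⟩
          rw [hinj hji] at hj
          exact hi hj
    have e2 : ((X ∪ range g)ᶜ ∪ g '' S).ncard = ((X ∪ range g)ᶜ).ncard + S.card := by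
      rw [Set.ncard_union_eq, Set.ncard_image_of_injective _ hinj, Set.ncard_coe_finset]
      rw [Set.disjoint_left]
      rintro x hx ⟨i, _, rfl⟩
      exact hx (Or.inr ⟨i, rfl⟩)
    have e3 : r (X ∪ range g) = r X + 3 := by
      have a1 := hg Finset.univ
      have k1 : kap Finset.univ = 3 := by decide
      rw [k1, Finset.coe_univ, Set.image_univ] at a1
      exact a1
    rw [dualF_apply, dualF_apply, e1, e2, hg, compl_compl, e3]
    push_cast
    ring
  refine ⟨(X ∪ range g)ᶜ, g ∘ tau, fun S => ?_⟩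
  rw [comp_image, key, kap_dual]

theorem hasK4_dualF_iff [Finite U] {r : Set U → ℤ} (h0 : r ∅ = 0) :
    HasK4 (dualF r) ↔ HasK4 r := by
  constructor
  · intro h
    have := h.dual'
    rwa [dualF_dualF h0] at this
  · exact fun h => h.dual'

end Pool.Agent.H863.K4
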