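import Pool.Agent.H863.K4.Kappa

/-!
# `M(K₄)`-configurations in abstract rank functions, and principal extensions
-/

namespace Pool.Agent.H863.K4

open Set

variable {U : Type}

/-- Abstract rank functions (not necessarily normalised). -/
structure IsRk (r : Set U → ℤ) : Prop where
  mono : ∀ {S T : Set U}, S ⊆ T → r S ≤ r T
  submod : ∀ S T : Set U, r (S ∪ T) + r (S ∩ T) ≤ r S + r T
  unit : ∀ (S : Set U) (x : U), r (insert x S) ≤ r S + 1

/-- `r` has an `M(K₄)`-minor: after contracting `X`, the six elements `g i` have the rank function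
of `M(K₄)`. -/
def HasK4 (r : Set U → ℤ) : Prop :=
  ∃ (X : Set U) (g : Fin 6 → U), ∀ S : Finset (Fin 6), r (X ∪ g '' S) = r X + kap S

theorem IsRk.union_le {r : Set U → ℤ} (h : IsRk r) {A B C D : Set U} (h1 : C ⊆ A ∪ B)
    (h2 : D ⊆ A ∩ B) : r C + r D ≤ r A + r B := by
  have := h.mono h1
  have := h.mono h2
  have := h.submod A B
  linarith

theorem image_insert' (g : Fin 6 → U) (x : Fin 6) (S : Finset (Fin 6)) :
    g '' (↑(insert x S) : Set (Fin 6)) = insert (g x) (g '' (↑S : Set (Fin 6))) := by
  rw [Finset.coe_insert, Set.image_insert_eq]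

theorem IsRk.isRk6 {r : Set U → ℤ} (h : IsRk r) (X : Set U) (g : Fin 6 → U) :
    IsRk6 (fun S => r (X ∪ g '' S) - r X) := by
  have hunit : ∀ (S : Finset (Fin 6)) x,
      r (X ∪ g '' (↑(insert x S) : Set (Fin 6))) ≤ r (X ∪ g '' S) + 1 := by
    intro S x
    rw [image_insert', Set.union_insert]
    exact h.unit _ _
  refine ⟨by simp, ?_, ?_, ?_, ?_⟩
  · intro S T hST
    have := h.mono (Set.union_subset_union_right X (Set.image_mono (f := g)
      (Finset.coe_subset.mpr hST)))
    show _ - _ ≤ _ - _
    linarith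
  · intro S T
    have := h.union_le (A := X ∪ g '' S) (B := X ∪ g '' T)
      (C := X ∪ g '' (↑(S ∪ T) : Set (Fin 6))) (D := X ∪ g '' (↑(S ∩ T) : Set (Fin 6)))
      (by
        rw [Finset.coe_union, Set.image_union]
        intro x hx
        rcases hx with hx | hx | hx
        · exact Or.inl (Or.inl hx)
        · exact Or.inl (Or.inr hx)
        · exact Or.inr (Or.inr hx))
      (by
        rw [Finset.coe_inter]
        rintro x (hx | ⟨y, hy, rfl⟩)
        · exact ⟨Or.inl hx, Or.inl hx⟩
        · exact ⟨Or.inr ⟨y, hy.1, rfl⟩, Or.inr ⟨y, hy.2, rfl⟩⟩)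
    show _ - _ + (_ - _) ≤ _ - _ + (_ - _)
    linarith
  · intro S
    show _ - _ ≤ _
    induction S using Finset.induction_on with
    | empty => simp
    | insert x S hx ih =>
      have := hunit S x
      have hc : ((insert x S).card : ℤ) = S.card + 1 := by
        rw [Finset.card_insert_of_notMem hx]; push_cast; ring
      rw [hc]
      linarith
  · intro S x
    have := hunit S x
    show _ - _ ≤ _ - _ + 1
    linarith

theorem hasK4_of {r : Set U → ℤ} (h : IsRk r) (X : Set U) (g : Fin 6 → U)
    (hpair : ∀ P : Finset (Fin 6), P.card = 2 → P ∉ opp → r X + 2 ≤ r (X ∪ g '' P))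
    (hline : ∀ L ∈ lines, r (X ∪ g '' L) ≤ r X + 2)
    (hall : r X + 3 ≤ r (X ∪ g '' (↑(Finset.univ : Finset (Fin 6)) : Set (Fin 6)))) :
    HasK4 r := by
  refine ⟨X, g, fun S => ?_⟩
  have := crit (h.isRk6 X g) (fun P h1 h2 => by have := hpair P h1 h2; show _ ≤ _ - _; linarith)
    (fun L hL => by have := hline L hL; show _ - _ ≤ _; linarith)
    (by show _ ≤ _ - _; linarith) S
  have h' : r (X ∪ g '' S) - r X = kap S := this
  linarith

theorem IsRk.exists_aug [Finite U] {r : Set U → ℤ} (h : IsRk r) {Y F : Set U}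
    (hlt : r Y < r (Y ∪ F)) : ∃ p ∈ F, r (insert p Y) = r Y + 1 := by
  classical
  by_contra hcon
  push Not at hcon
  have hle : ∀ p ∈ F, r (insert p Y) ≤ r Y := by
    intro p hp
    have h1 := h.unit Y p
    have h2 := hcon p hp
    omega
  have key : ∀ S : Finset U, (↑S : Set U) ⊆ F → r (Y ∪ ↑S) ≤ r Y := by
    intro S
    induction S using Finset.induction_on with
    | empty => intro _; simp
    | insert p S hp ih =>
      intro hS
      rw [Finset.coe_insert, Set.insert_subset_iff] at hS
      have h1 := ih hS.2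
      have h2 := hle p hS.1
      have h3 := h.union_le (A := Y ∪ ↑S) (B := insert p Y) (C := Y ∪ ↑(insert p S)) (D := Y)
        (by
          rw [Finset.coe_insert]
          rintro x (hx | rfl | hx)
          · exact Or.inl (Or.inl hx)
          · exact Or.inr (Set.mem_insert _ _)
          · exact Or.inl (Or.inr hx))
        (fun x hx => ⟨Or.inl hx, Or.inr hx⟩)
      linarith
  have := key (Set.toFinite F).toFinset (by simp)
  rw [Set.Finite.coe_toFinset] at this
  linarith

/-- the principal extension: the element `e` is placed freely on the flat spanned by `F` -/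
noncomputable def pext (r : Set U → ℤ) (e : U) (F : Set U) : Set U → ℤ := by
  classical
  exact fun S => if e ∈ S then min (r S + 1) (r (S ∪ F)) else r S

theorem pext_mem {r : Set U → ℤ} {e : U} {F S : Set U} (h : e ∈ S) :
    pext r e F S = min (r S + 1) (r (S ∪ F)) := by
  unfold pext; exact if_pos h

theorem pext_notMem {r : Set U → ℤ} {e : U} {F S : Set U} (h : e ∉ S) :
    pext r e F S = r S := by
  unfold pext; exact if_neg h

theorem IsRk.pext {r : Set U → ℤ} (h : IsRk r) (e : U) (F : Set U)
    (he : ∀ S, r (insert e S) = r S) : IsRk (pext r e F) := by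
  refine ⟨?_, ?_, ?_⟩
  · intro S T hST
    by_cases hS : e ∈ S
    · rw [pext_mem hS, pext_mem (hST hS)]
      have h1 := h.mono hST
      have h2 := h.mono (Set.union_subset_union_left F hST)
      exact min_le_min (by linarith) h2
    · by_cases hT : e ∈ T
      · rw [pext_notMem hS, pext_mem hT]
        have h1 := h.mono hST
        have h2 := h.mono (hST.trans (Set.subset_union_left (t := F)))
        exact le_min (by linarith) h2
      · rw [pext_notMem hS, pext_notMem hT]
        exact h.mono hST
  · have hmix : ∀ S T : Set U, r (S ∪ T ∪ F) + r (S ∩ T) ≤ r (S ∪ F) + r T := by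
      intro S T
      refine h.union_le ?_ ?_
      · rintro x ((hx | hx) | hx)
        · exact Or.inl (Or.inl hx)
        · exact Or.inr hx
        · exact Or.inl (Or.inr hx)
      · rintro x ⟨hx, hx'⟩
        exact ⟨Or.inl hx, hx'⟩
    have hmix2 : ∀ S T : Set U, r (S ∪ T ∪ F) + r ((S ∩ T) ∪ F) ≤ r (S ∪ F) + r (T ∪ F) := by
      intro S T
      refine h.union_le ?_ ?_
      · rintro x ((hx | hx) | hx)
        · exact Or.inl (Or.inl hx)
        · exact Or.inr (Or.inl hx)
        · exact Or.inl (Or.inr hx)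
      · rintro x (⟨hx, hx'⟩ | hx)
        · exact ⟨Or.inl hx, Or.inl hx'⟩
        · exact ⟨Or.inr hx, Or.inr hx⟩
    intro S T
    have h0 := h.submod S T
    have h1 := hmix S T
    have h2 := hmix T S
    rw [Set.union_comm T S, Set.inter_comm T S] at h2
    have h3 := hmix2 S T
    by_cases hS : e ∈ S <;> by_cases hT : e ∈ T
    · rw [pext_mem hS, pext_mem hT, pext_mem (show e ∈ S ∪ T from Or.inl hS),
        pext_mem (show e ∈ S ∩ T from ⟨hS, hT⟩)]
      rcases min_cases (r S + 1) (r (S ∪ F)) with ⟨e1, _⟩ | ⟨e1, _⟩ <;>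
      rcases min_cases (r T + 1) (r (T ∪ F)) with ⟨e2, _⟩ | ⟨e2, _⟩ <;>
      rw [e1, e2] <;>
      have a1 := min_le_left (r (S ∪ T) + 1) (r (S ∪ T ∪ F)) <;>
      have a2 := min_le_right (r (S ∪ T) + 1) (r (S ∪ T ∪ F)) <;>
      have a3 := min_le_left (r (S ∩ T) + 1) (r (S ∩ T ∪ F)) <;>
      have a4 := min_le_right (r (S ∩ T) + 1) (r (S ∩ T ∪ F)) <;>
      linarith
    · rw [pext_mem hS, pext_notMem hT, pext_mem (show e ∈ S ∪ T from Or.inl hS),
        pext_notMem (show e ∉ S ∩ T from fun h => hT h.2)]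
      rcases min_cases (r S + 1) (r (S ∪ F)) with ⟨e1, _⟩ | ⟨e1, _⟩ <;>
      rw [e1] <;>
      have a1 := min_le_left (r (S ∪ T) + 1) (r (S ∪ T ∪ F)) <;>
      have a2 := min_le_right (r (S ∪ T) + 1) (r (S ∪ T ∪ F)) <;>
      linarith
    · rw [pext_notMem hS, pext_mem hT, pext_mem (show e ∈ S ∪ T from Or.inr hT),
        pext_notMem (show e ∉ S ∩ T from fun h => hS h.1)]
      rcases min_cases (r T + 1) (r (T ∪ F)) with ⟨e1, _⟩ | ⟨e1, _⟩ <;>
      rw [e1] <;>
      have a1 := min_le_left (r (S ∪ T) + 1) (r (S ∪ T ∪ F)) <;>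
      have a2 := min_le_right (r (S ∪ T) + 1) (r (S ∪ T ∪ F)) <;>
      linarith
    · rw [pext_notMem hS, pext_notMem hT, pext_notMem (show e ∉ S ∪ T from fun h => h.elim hS hT),
        pext_notMem (show e ∉ S ∩ T from fun h => hS h.1)]
      exact h0
  · intro S x
    by_cases hS : e ∈ S
    · rw [pext_mem hS, pext_mem (Set.mem_insert_of_mem _ hS)]
      have h1 := h.unit S x
      have h2 := h.unit (S ∪ F) x
      rw [← Set.insert_union] at h2
      rcases min_cases (r S + 1) (r (S ∪ F)) with ⟨e1, _⟩ | ⟨e1, _⟩ <;>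
      rw [e1] <;>
      have a1 := min_le_left (r (insert x S) + 1) (r (insert x S ∪ F)) <;>
      have a2 := min_le_right (r (insert x S) + 1) (r (insert x S ∪ F)) <;>
      linarith
    · rw [pext_notMem hS]
      by_cases hx : e = x
      · subst hx
        rw [pext_mem (Set.mem_insert _ _)]
        have := min_le_left (r (insert e S) + 1) (r (insert e S ∪ F))
        rw [he] at this ⊢
        exact this
      · rw [pext_notMem (by rintro (h | h); exacts [hx h, hS h])]
        exact h.unit S x

end Pool.Agent.H863.K4
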