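import Pool.Agent.H863.K4.Kappa

/-!
# The forests of the complete graph on four vertices
-/

namespace Pool.Agent.H863.K4

/-- the edges of `K₄`, numbered -/
def ed : Fin 6 → Sym2 (Fin 4) := ![s(0, 1), s(0, 2), s(1, 2), s(0, 3), s(1, 3), s(2, 3)]

theorem ed_injective : Function.Injective ed := by decide

theorem ed_not_diag : ∀ i, ¬ (ed i).IsDiag := by decide

theorem ed_surj : ∀ a b : Fin 4, a ≠ b → ∃ i, ed i = s(a, b) := by decide

/-- the graph on four vertices with the edges `ed i`, `i ∈ S` -/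
def gr (S : Finset (Fin 6)) : SimpleGraph (Fin 4) := SimpleGraph.fromEdgeSet (ed '' (↑S : Set (Fin 6)))

theorem gr_adj (S : Finset (Fin 6)) (a b : Fin 4) : (gr S).Adj a b ↔ ∃ i ∈ S, ed i = s(a, b) := by
  unfold gr
  rw [SimpleGraph.fromEdgeSet_adj]
  constructor
  · rintro ⟨⟨i, hi, h⟩, _⟩
    exact ⟨i, hi, h⟩
  · rintro ⟨i, hi, h⟩
    refine ⟨⟨i, hi, h⟩, ?_⟩
    rintro rfl
    exact ed_not_diag i (by rw [h]; exact Sym2.mk_isDiag_iff.mpr rfl)

theorem not_acyclic_three {G : SimpleGraph (Fin 4)} {a b c : Fin 4} (h1 : G.Adj a b)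
    (h2 : G.Adj b c) (h3 : G.Adj a c) : ¬ G.IsAcyclic := by
  intro h
  have hp := (h.subsingleton_path a c).elim
    (⟨SimpleGraph.Walk.cons h3 .nil, by simp [h3.ne]⟩ : G.Path a c)
    (⟨SimpleGraph.Walk.cons h1 (.cons h2 .nil), by simp [h1.ne, h2.ne, h3.ne]⟩)
  simp at hp
  exact h2.ne hp.1.symm

theorem not_acyclic_four {G : SimpleGraph (Fin 4)} {a b c d : Fin 4} (h1 : G.Adj a b)
    (h2 : G.Adj b c) (h3 : G.Adj c d) (h4 : G.Adj a d) (hac : a ≠ c) (hbd : b ≠ d) :
    ¬ G.IsAcyclic := by
  intro h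
  have hp := (h.subsingleton_path a d).elim
    (⟨SimpleGraph.Walk.cons h4 .nil, by simp [h4.ne]⟩ : G.Path a d)
    (⟨SimpleGraph.Walk.cons h1 (.cons h2 (.cons h3 .nil)), by
      simp [h1.ne, h2.ne, h3.ne, h4.ne, hac, hbd]⟩)
  simp at hp
  exact hbd hp.1.symm

theorem fact_dep : ∀ S : Finset (Fin 6), kap S ≠ S.card →
    ({0, 1, 2} ⊆ S ∨ {0, 3, 4} ⊆ S ∨ {1, 3, 5} ⊆ S ∨ {2, 4, 5} ⊆ S) ∨
    ({1, 2, 3, 4} ⊆ S ∨ {0, 2, 3, 5} ⊆ S ∨ {0, 1, 4, 5} ⊆ S) := by decide

set_option maxRecDepth 100000 in
theorem fact_tri : ∀ a b c : Fin 4, a ≠ b → b ≠ c → a ≠ c → ∀ i j k : Fin 6,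
    ed i = s(a, b) → ed j = s(b, c) → ed k = s(a, c) → ({i, j, k} : Finset (Fin 6)) ∈ lines := by
  decide

theorem acyclic_iff (S : Finset (Fin 6)) : (gr S).IsAcyclic ↔ kap S = S.card := by
  constructor
  · intro h
    by_contra hne
    have hadj : ∀ {i : Fin 6} {a b : Fin 4}, i ∈ S → ed i = s(a, b) → (gr S).Adj a b :=
      fun hi he => (gr_adj S _ _).mpr ⟨_, hi, he⟩
    rcases fact_dep S hne with (hS | hS | hS | hS) | (hS | hS | hS)
    · exact not_acyclic_three (a := 0) (b := 1) (c := 2)
        (hadj (i := 0) (hS (by decide)) (by decide)) (hadj (i := 2) (hS (by decide)) (by decide))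
        (hadj (i := 1) (hS (by decide)) (by decide)) h
    · exact not_acyclic_three (a := 0) (b := 1) (c := 3)
        (hadj (i := 0) (hS (by decide)) (by decide)) (hadj (i := 4) (hS (by decide)) (by decide))
        (hadj (i := 3) (hS (by decide)) (by decide)) h
    · exact not_acyclic_three (a := 0) (b := 2) (c := 3)
        (hadj (i := 1) (hS (by decide)) (by decide)) (hadj (i := 5) (hS (by decide)) (by decide))
        (hadj (i := 3) (hS (by decide)) (by decide)) h
    · exact not_acyclic_three (a := 1) (b := 2) (c := 3)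
        (hadj (i := 2) (hS (by decide)) (by decide)) (hadj (i := 5) (hS (by decide)) (by decide))
        (hadj (i := 4) (hS (by decide)) (by decide)) h
    · exact not_acyclic_four (a := 0) (b := 2) (c := 1) (d := 3)
        (hadj (i := 1) (hS (by decide)) (by decide)) (hadj (i := 2) (hS (by decide)) (by decide))
        (hadj (i := 4) (hS (by decide)) (by decide)) (hadj (i := 3) (hS (by decide)) (by decide))
        (by decide) (by decide) h
    · exact not_acyclic_four (a := 0) (b := 1) (c := 2) (d := 3)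
        (hadj (i := 0) (hS (by decide)) (by decide)) (hadj (i := 2) (hS (by decide)) (by decide))
        (hadj (i := 5) (hS (by decide)) (by decide)) (hadj (i := 3) (hS (by decide)) (by decide))
        (by decide) (by decide) h
    · exact not_acyclic_four (a := 0) (b := 1) (c := 3) (d := 2)
        (hadj (i := 0) (hS (by decide)) (by decide)) (hadj (i := 4) (hS (by decide)) (by decide))
        (hadj (i := 5) (hS (by decide)) (by decide)) (hadj (i := 1) (hS (by decide)) (by decide))
        (by decide) (by decide) h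
  · intro hk v c hc
    have hlen := hc.three_le_length
    have hnd := hc.isTrail.edges_nodup
    have hsub : c.edges.toFinset ⊆ S.image ed := by
      intro e he
      rw [List.mem_toFinset] at he
      have h1 := c.edges_subset_edgeSet he
      induction e using Sym2.ind with
      | _ a b =>
        rw [SimpleGraph.mem_edgeSet, gr_adj] at h1
        obtain ⟨i, hi, h⟩ := h1
        exact Finset.mem_image.mpr ⟨i, hi, h⟩
    have hcard : c.length ≤ S.card := by
      rw [← c.length_edges, ← List.toFinset_card_of_nodup hnd]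
      exact (Finset.card_le_card hsub).trans Finset.card_image_le
    have hS3 : S.card ≤ 3 := by
      have h1 : kap S ≤ 3 := by
        unfold kap
        split_ifs
        · norm_num
        · exact_mod_cast min_le_right _ _
      rw [hk] at h1
      exact_mod_cast h1
    have hl3 : c.length = 3 := by omega
    have hScard : S.card = 3 := by omega
    have hex : ∃ i j k, i ∈ S ∧ j ∈ S ∧ k ∈ S ∧ ({i, j, k} : Finset (Fin 6)) ∈ lines := by
      match c, hl3 with
      | .cons h1 (.cons h2 (.cons h3 .nil)), _ =>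
        obtain ⟨i, hi, e1⟩ := (gr_adj S _ _).mp h1
        obtain ⟨j, hj, e2⟩ := (gr_adj S _ _).mp h2
        obtain ⟨k, hk', e3⟩ := (gr_adj S _ _).mp h3.symm
        exact ⟨i, j, k, hi, hj, hk', fact_tri _ _ _ h1.ne h2.ne h3.ne.symm i j k e1 e2 e3⟩
    obtain ⟨i, j, k, hi, hj, hk', hl⟩ := hex
    have hsub' : ({i, j, k} : Finset (Fin 6)) ⊆ S := by
      intro x hx
      simp only [Finset.mem_insert, Finset.mem_singleton] at hx
      rcases hx with rfl | rfl | rfl <;> assumption
    have hc3 := fact_line_card _ hl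
    have heq : ({i, j, k} : Finset (Fin 6)) = S :=
      Finset.eq_of_subset_of_card_le hsub' (by omega)
    rw [heq] at hl
    rw [kap, if_pos hl, hScard] at hk
    norm_num at hk

end Pool.Agent.H863.K4
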