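import Pool.Agent.H863.K4.Dual
import Pool.Agent.Helper666.FinGen.Induced

/-!
# Induction by a digraph creates no new `M(K₄)`-minor
-/

namespace Pool.Agent.H863.K4

open Set Pool.Agent.Helper666.FinGen

variable {T : Type}

theorem isRk_rk {α : Type} (M : Matroid α) [M.Finite] : IsRk (rk M) := by
  refine ⟨fun h => rk_mono M h, fun S T => rk_submod M S T, fun S x => ?_⟩
  have h1 := rk_union_le M S {x} (Set.finite_singleton x)
  rw [Set.union_singleton, Set.ncard_singleton] at h1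
  exact_mod_cast h1

/-- a rank function on `T`, extended by loops to `T ⊕ T` -/
def liftF (s : Set T → ℤ) : Set (T ⊕ T) → ℤ := fun S => s (Sum.inl ⁻¹' S)

theorem IsRk.liftF {s : Set T → ℤ} (h : IsRk s) : IsRk (liftF s) := by
  refine ⟨fun hST => h.mono (Set.preimage_mono hST), fun S T => ?_, fun S x => ?_⟩
  · exact h.submod _ _
  · rcases x with x | x
    · have : (Sum.inl ⁻¹' (insert (Sum.inl x) S) : Set T) = insert x (Sum.inl ⁻¹' S) := by
        ext y; simp
      show s _ ≤ s _ + 1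
      rw [this]
      exact h.unit _ _
    · have : (Sum.inl ⁻¹' (insert (Sum.inr x) S) : Set T) = Sum.inl ⁻¹' S := by
        ext y; simp
      show s _ ≤ s _ + 1
      rw [this]
      linarith

theorem HasK4.of_liftF {s : Set T → ℤ} (h : HasK4 (liftF s)) : HasK4 s := by
  obtain ⟨X, g, hg⟩ := h
  have hex : ∀ i, ∃ t, g i = Sum.inl t := by
    intro i
    rcases hgi : g i with t | t
    · exact ⟨t, rfl⟩
    · exfalso
      have a1 := hg {i}
      rw [kap_one, Finset.coe_singleton, Set.image_singleton, Set.union_singleton, hgi] at a1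
      have : (Sum.inl ⁻¹' (insert (Sum.inr t) X) : Set T) = Sum.inl ⁻¹' X := by
        ext y; simp
      have a2 : s (Sum.inl ⁻¹' (insert (Sum.inr t) X)) = s (Sum.inl ⁻¹' X) + 1 := a1
      rw [this] at a2
      linarith
  choose g' hg' using hex
  refine ⟨Sum.inl ⁻¹' X, g', fun S => ?_⟩
  have a1 : s (Sum.inl ⁻¹' (X ∪ g '' S)) = s (Sum.inl ⁻¹' X) + kap S := hg S
  have a2 : (Sum.inl ⁻¹' (X ∪ g '' S) : Set T) = Sum.inl ⁻¹' X ∪ g' '' S := by
    ext y
    simp only [Set.mem_preimage, Set.mem_union, Set.mem_image, hg', Sum.inl.injEq]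
  rw [← a2]; exact a1

/-- the rank formula for the iterated principal extension -/
def Formula (Γ : Digraph T) (s : Set T → ℤ) (J : Set T) (R : Set (T ⊕ T) → ℤ) : Prop :=
  ∀ S : Set (T ⊕ T),
    (∀ Q : Set T, R S ≤ (((Sum.inr ⁻¹' S) ∩ J) \ Q).ncard + s ((Sum.inl ⁻¹' S) ∪ nbhd Γ Q)) ∧
    ∃ Q : Set T, (((Sum.inr ⁻¹' S) ∩ J) \ Q).ncard + s ((Sum.inl ⁻¹' S) ∪ nbhd Γ Q) ≤ R S

theorem Formula.congr {Γ : Digraph T} {s : Set T → ℤ} {J : Set T} {R : Set (T ⊕ T) → ℤ}
    (h : Formula Γ s J R) {S S' : Set (T ⊕ T)}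
    (h1 : (Sum.inr ⁻¹' S) ∩ J = ((Sum.inr ⁻¹' S') ∩ J : Set T))
    (h2 : (Sum.inl ⁻¹' S : Set T) = Sum.inl ⁻¹' S') : R S = R S' := by
  obtain ⟨a, Q, hQ⟩ := h S
  obtain ⟨a', Q', hQ'⟩ := h S'
  apply le_antisymm
  · refine (a Q').trans ?_
    rw [h1, h2]
    exact hQ'
  · refine (a' Q).trans ?_
    rw [← h1, ← h2]
    exact hQ

theorem nbhd_empty (Γ : Digraph T) : nbhd Γ ∅ = ∅ := by
  ext x; simp [nbhd]

theorem exists_iter [Finite T] (Γ : Digraph T) {s : Set T → ℤ} (hs : IsRk s) (J : Finset T) :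
    ∃ R : Set (T ⊕ T) → ℤ, IsRk R ∧ (HasK4 R → HasK4 s) ∧ Formula Γ s (↑J) R := by
  classical
  induction J using Finset.induction_on with
  | empty =>
    refine ⟨liftF s, hs.liftF, HasK4.of_liftF, fun S => ⟨fun Q => ?_, ∅, ?_⟩⟩
    · have h1 := hs.mono (Set.subset_union_left (s := Sum.inl ⁻¹' S) (t := nbhd Γ Q))
      have h2 : (0 : ℤ) ≤ (((Sum.inr ⁻¹' S ∩ (↑(∅ : Finset T) : Set T)) \ Q).ncard : ℤ) := by
        positivity
      have h3 : liftF s S = s (Sum.inl ⁻¹' S) := rfl
      linarith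
    · rw [nbhd_empty, Set.union_empty]
      simp [liftF]
  | insert v J hv ih =>
    obtain ⟨R, hR, hk, hF⟩ := ih
    have hloop : ∀ S, R (insert (Sum.inr v) S) = R S := by
      intro S
      apply hF.congr
      · ext x
        simp only [Set.mem_inter_iff, Set.mem_preimage, Set.mem_insert_iff, Sum.inr.injEq,
          Finset.mem_coe]
        constructor
        · rintro ⟨rfl | h, h'⟩
          · exact absurd h' hv
          · exact ⟨h, h'⟩
        · rintro ⟨h, h'⟩
          exact ⟨Or.inr h, h'⟩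
      · ext x; simp
    refine ⟨pext R (Sum.inr v) (Sum.inl '' nbhd Γ {v}), hR.pext _ _ hloop,
      fun h => hk (hasK4_of_pext hR hloop h), ?_⟩
    intro S
    have hpre : (Sum.inl ⁻¹' (S ∪ Sum.inl '' nbhd Γ {v}) : Set T) =
        Sum.inl ⁻¹' S ∪ nbhd Γ {v} := by
      ext x; simp
    have hpre' : (Sum.inr ⁻¹' (S ∪ Sum.inl '' nbhd Γ {v}) : Set T) = Sum.inr ⁻¹' S := by
      ext x; simp
    by_cases hvS : Sum.inr v ∈ S
    · rw [pext_mem hvS]
      constructor
      · intro Q
        by_cases hvQ : v ∈ Q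
        · refine (min_le_right _ _).trans (((hF _).1 Q).trans ?_)
          rw [hpre, hpre']
          have e1 : (Sum.inr ⁻¹' S ∩ ↑(insert v J)) \ Q = ((Sum.inr ⁻¹' S ∩ ↑J) \ Q : Set T) := by
            ext x
            simp only [Set.mem_sdiff, Set.mem_inter_iff, Set.mem_preimage, Finset.coe_insert,
              Set.mem_insert_iff, Finset.mem_coe]
            constructor
            · rintro ⟨⟨h1, rfl | h2⟩, h3⟩
              · exact absurd hvQ h3
              · exact ⟨⟨h1, h2⟩, h3⟩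
            · rintro ⟨⟨h1, h2⟩, h3⟩
              exact ⟨⟨h1, Or.inr h2⟩, h3⟩
          have e2 : Sum.inl ⁻¹' S ∪ nbhd Γ {v} ∪ nbhd Γ Q = Sum.inl ⁻¹' S ∪ nbhd Γ Q := by
            rw [Set.union_assoc, ← nbhd_union]
            congr 2
            exact Set.union_eq_self_of_subset_left (Set.singleton_subset_iff.mpr hvQ)
          rw [e1, e2]
        · refine (min_le_left _ _).trans ?_
          have h1 := (hF S).1 Q
          have e1 : (Sum.inr ⁻¹' S ∩ ↑(insert v J)) \ Q =
              insert v ((Sum.inr ⁻¹' S ∩ ↑J) \ Q : Set T) := by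
            ext x
            simp only [Set.mem_sdiff, Set.mem_inter_iff, Set.mem_preimage, Finset.coe_insert,
              Set.mem_insert_iff, Finset.mem_coe]
            constructor
            · rintro ⟨⟨h1, rfl | h2⟩, h3⟩
              · exact Or.inl rfl
              · exact Or.inr ⟨⟨h1, h2⟩, h3⟩
            · rintro (rfl | ⟨⟨h1, h2⟩, h3⟩)
              · exact ⟨⟨hvS, Or.inl rfl⟩, hvQ⟩
              · exact ⟨⟨h1, Or.inr h2⟩, h3⟩
          rw [e1, Set.ncard_insert_of_notMem (fun h => hv (Finset.mem_coe.mp h.1.2))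
            (Set.toFinite _)]
          push_cast
          linarith
      · rcases min_cases (R S + 1) (R (S ∪ Sum.inl '' nbhd Γ {v})) with ⟨e, _⟩ | ⟨e, _⟩
        · rw [e]
          obtain ⟨Q, hQ⟩ := (hF S).2
          refine ⟨Q, ?_⟩
          have h1 : ((Sum.inr ⁻¹' S ∩ ↑(insert v J)) \ Q : Set T).ncard ≤
              ((Sum.inr ⁻¹' S ∩ ↑J) \ Q : Set T).ncard + 1 := by
            refine (Set.ncard_le_ncard (t := insert v ((Sum.inr ⁻¹' S ∩ ↑J) \ Q : Set T)) ?_
              (Set.toFinite _)).trans (Set.ncard_insert_le _ _)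
            rintro x ⟨⟨h1, h2⟩, h3⟩
            rw [Finset.coe_insert] at h2
            rcases h2 with rfl | h2
            · exact Set.mem_insert _ _
            · exact Set.mem_insert_of_mem _ ⟨⟨h1, h2⟩, h3⟩
          have h2 : (((Sum.inr ⁻¹' S ∩ ↑(insert v J)) \ Q : Set T).ncard : ℤ) ≤
              ((Sum.inr ⁻¹' S ∩ ↑J) \ Q : Set T).ncard + 1 := by exact_mod_cast h1
          linarith
        · rw [e]
          obtain ⟨Q, hQ⟩ := (hF (S ∪ Sum.inl '' nbhd Γ {v})).2
          rw [hpre, hpre'] at hQ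
          refine ⟨{v} ∪ Q, ?_⟩
          have h1 : ((Sum.inr ⁻¹' S ∩ ↑(insert v J)) \ ({v} ∪ Q) : Set T).ncard ≤
              ((Sum.inr ⁻¹' S ∩ ↑J) \ Q : Set T).ncard := by
            refine Set.ncard_le_ncard ?_ (Set.toFinite _)
            rintro x ⟨⟨h1, h2⟩, h3⟩
            rw [Finset.coe_insert] at h2
            rcases h2 with rfl | h2
            · exact absurd (Or.inl rfl) h3
            · exact ⟨⟨h1, h2⟩, fun h => h3 (Or.inr h)⟩
          have h2 : (((Sum.inr ⁻¹' S ∩ ↑(insert v J)) \ ({v} ∪ Q) : Set T).ncard : ℤ) ≤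
              ((Sum.inr ⁻¹' S ∩ ↑J) \ Q : Set T).ncard := by exact_mod_cast h1
          rw [nbhd_union, ← Set.union_assoc]
          linarith
    · rw [pext_notMem hvS]
      have e1 : Sum.inr ⁻¹' S ∩ ↑(insert v J) = (Sum.inr ⁻¹' S ∩ ↑J : Set T) := by
        ext x
        simp only [Set.mem_inter_iff, Set.mem_preimage, Finset.coe_insert,
          Set.mem_insert_iff, Finset.mem_coe]
        constructor
        · rintro ⟨h1, rfl | h2⟩
          · exact absurd h1 hvS
          · exact ⟨h1, h2⟩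
        · rintro ⟨h1, h2⟩
          exact ⟨h1, Or.inr h2⟩
      rw [e1]
      exact hF S

end Pool.Agent.H863.K4
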