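import Pool.Agent.H863.K4.Induce

/-!
# Induction by a digraph creates no new `M(K₄)`-minor: conclusion
-/

namespace Pool.Agent.H863.K4

open Set Pool.Agent.Helper666.FinGen

variable {T : Type}

theorem isRk_comp_inr {R : Set (T ⊕ T) → ℤ} (h : IsRk R) :
    IsRk (fun B : Set T => R (Sum.inr '' B)) := by
  refine ⟨fun hST => h.mono (Set.image_mono hST), fun S T => ?_, fun S x => ?_⟩
  · show R _ + R _ ≤ R _ + R _
    rw [Set.image_union, Set.image_inter Sum.inr_injective]
    exact h.submod _ _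
  · show R _ ≤ R _ + 1
    rw [Set.image_insert_eq]
    exact h.unit _ _

theorem hasK4_of_comp_inr {R : Set (T ⊕ T) → ℤ} (h : HasK4 (fun B : Set T => R (Sum.inr '' B))) :
    HasK4 R := by
  obtain ⟨X, g, hg⟩ := h
  refine ⟨Sum.inr '' X, Sum.inr ∘ g, fun S => ?_⟩
  have := hg S
  rw [Set.image_comp, ← Set.image_union]
  exact this

theorem hasK4_restrict {r r' : Set T → ℤ} {A : Set T} (h : HasK4 r)
    (hA : ∀ S, r (S ∩ A) = r S) (heq : ∀ S, S ⊆ A → r' S = r S) : HasK4 r' := by
  obtain ⟨X, g, hg⟩ := h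
  have hgA : ∀ i, g i ∈ A := by
    intro i
    by_contra hi
    have a1 := hg {i}
    rw [kap_one, Finset.coe_singleton, Set.image_singleton, Set.union_singleton] at a1
    rw [← hA (insert (g i) X), Set.insert_inter_of_notMem hi, hA] at a1
    linarith
  refine ⟨X ∩ A, g, fun S => ?_⟩
  have hS : g '' (↑S : Set (Fin 6)) ⊆ A := by
    rintro x ⟨i, _, rfl⟩
    exact hgA i
  have e1 : X ∩ A ∪ g '' (↑S : Set (Fin 6)) = (X ∪ g '' (↑S : Set (Fin 6))) ∩ A := by
    rw [Set.union_inter_distrib_right, Set.inter_eq_self_of_subset_left hS]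
  rw [e1, heq _ Set.inter_subset_right, heq _ Set.inter_subset_right, hA, hA]
  exact hg S

/-- Induction by a digraph creates no new `M(K₄)`-minor. -/
theorem hasK4_of_induced [Finite T] {Γ : Digraph T} {M₀ N : Matroid T} {A : Set T}
    (h : IsInduced Γ M₀ A N) (hk : HasK4 (rk N)) : HasK4 (rk M₀) := by
  classical
  have := finite_matroid M₀
  have := finite_matroid N
  have hs : IsRk (dualF (rk M₀)) := (isRk_rk M₀).dualF
  have := Fintype.ofFinite T
  obtain ⟨R, hR, hRk, hF⟩ := exists_iter Γ hs (Finset.univ : Finset T)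
  rw [Finset.coe_univ] at hF
  set t : Set T → ℤ := fun B => R (Sum.inr '' B) with ht
  have hpre : ∀ B : Set T, (Sum.inl ⁻¹' (Sum.inr '' B) : Set T) = ∅ := by
    intro B; ext x; simp
  have hpre' : ∀ B : Set T, (Sum.inr ⁻¹' (Sum.inr '' B : Set (T ⊕ T)) : Set T) = B := by
    intro B; ext x; simp
  have ht1 : ∀ B Q : Set T, t B ≤ (B \ Q).ncard + dualF (rk M₀) (nbhd Γ Q) := by
    intro B Q
    have := (hF (Sum.inr '' B)).1 Q
    rw [hpre, hpre', Set.inter_univ, Set.empty_union] at this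
    exact this
  have ht2 : ∀ B : Set T, ∃ Q : Set T, (B \ Q).ncard + dualF (rk M₀) (nbhd Γ Q) ≤ t B := by
    intro B
    have := (hF (Sum.inr '' B)).2
    rw [hpre, hpre'] at this
    simp only [Set.inter_univ, Set.empty_union] at this
    exact this
  have hcompl : ∀ S : Set T, (S.ncard : ℤ) + (Sᶜ).ncard = Nat.card T := by
    intro S
    exact_mod_cast Set.ncard_add_ncard_compl S
  have hnbQ : ∀ Q : Set T, (Q.ncard : ℤ) ≤ (nbhd Γ Q).ncard := by
    intro Q
    exact_mod_cast Set.ncard_le_ncard (subset_nbhd Γ Q) (Set.toFinite _)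
  have htuniv : t univ = Nat.card T - rk M₀ univ := by
    apply le_antisymm
    · have := ht1 univ univ
      have h1 : nbhd Γ univ = univ := Set.eq_univ_of_univ_subset (subset_nbhd Γ _)
      rw [h1, dualF_apply, Set.compl_univ, rk_empty, Set.sdiff_self, Set.ncard_univ] at this
      simp only [Set.ncard_empty] at this
      push_cast at this
      linarith
    · obtain ⟨Q, hQ⟩ := ht2 univ
      rw [dualF_apply] at hQ
      have h1 := hcompl Q
      have h2 := hnbQ Q
      have h3 := rk_nonneg M₀ (nbhd Γ Q)ᶜ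
      have h4 : (univ \ Q : Set T) = Qᶜ := by rw [Set.compl_eq_univ_sdiff]
      rw [h4] at hQ
      linarith
  have ht0 : t ∅ = 0 := by
    apply le_antisymm
    · have := ht1 ∅ ∅
      rw [nbhd_empty, dualF_apply, Set.compl_empty] at this
      simp only [Set.ncard_empty, Set.empty_sdiff] at this
      push_cast at this
      linarith
    · obtain ⟨Q, hQ⟩ := ht2 ∅
      rw [Set.empty_sdiff, Set.ncard_empty, dualF_apply] at hQ
      have h1 := hcompl (nbhd Γ Q)
      have h2 := (isRk_rk M₀).union_ncard (nbhd Γ Q)ᶜ (nbhd Γ Q)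
      rw [Set.compl_union_self] at h2
      push_cast at hQ
      linarith
  -- the dual of `t` is the cut function
  have hcut : ∀ B Q : Set T, ((Bᶜ \ Q).ncard : ℤ) + dualF (rk M₀) (nbhd Γ Q) =
      cost Γ M₀ B Q - B.ncard + Nat.card T - rk M₀ univ := by
    intro B Q
    rw [cost_eq, dualF_apply]
    unfold rhoF
    have h1 : (Bᶜ \ Q : Set T) = (B ∪ Q)ᶜ := by
      rw [Set.compl_union]; rfl
    have h2 := hcompl (B ∪ Q)
    have h3 : (B ∪ Q).ncard + (B ∩ Q).ncard = B.ncard + Q.ncard :=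
      Set.ncard_union_add_ncard_inter B Q
    have h4 : ((B ∪ Q).ncard : ℤ) + (B ∩ Q).ncard = B.ncard + Q.ncard := by exact_mod_cast h3
    rw [h1]
    linarith
  have hdual1 : ∀ B Q : Set T, dualF t B ≤ cost Γ M₀ B Q := by
    intro B Q
    have h1 := ht1 Bᶜ Q
    rw [hcut] at h1
    rw [dualF_apply, htuniv]
    linarith
  have hdual2 : ∀ B : Set T, ∃ Q, cost Γ M₀ B Q ≤ dualF t B := by
    intro B
    obtain ⟨Q, hQ⟩ := ht2 Bᶜ
    refine ⟨Q, ?_⟩
    rw [hcut] at hQ
    rw [dualF_apply, htuniv]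
    linarith
  have heq : ∀ B, B ⊆ A → dualF t B = rk N B := by
    intro B hB
    apply le_antisymm
    · obtain ⟨Q, hQ⟩ := exists_cut h hB
      exact (hdual1 B Q).trans hQ
    · obtain ⟨Q, hQ⟩ := hdual2 B
      refine le_trans ?_ hQ
      have h1 := rk_induced_le h B Q (nbhd Γ Q) subset_rfl
      rw [Set.inter_eq_self_of_subset_left hB] at h1
      exact h1
  have hk1 : HasK4 (dualF t) := hasK4_restrict hk
    (fun S => by rw [← h.1]; exact rk_inter_ground N S) heq
  have hk2 : HasK4 t := (hasK4_dualF_iff ht0).mp hk1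
  have hk3 : HasK4 R := hasK4_of_comp_inr hk2
  have hk4 := hRk hk3
  exact (hasK4_dualF_iff (rk_empty M₀)).mp hk4

end Pool.Agent.H863.K4
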