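import Mathlib

/-!
# The rank function of `M(K₄)` and a criterion for it
-/

namespace Pool.Agent.H863.K4

/-- the four three-point lines of `M(K₄)` on `Fin 6` -/
def lines : Finset (Finset (Fin 6)) := {{0, 1, 2}, {0, 3, 4}, {1, 3, 5}, {2, 4, 5}}

/-- the rank function of `M(K₄)` -/
def kap (S : Finset (Fin 6)) : ℤ := if S ∈ lines then 2 else (min S.card 3 : ℕ)

/-- the twelve collinear pairs are the pairs other than these three -/
def opp : Finset (Finset (Fin 6)) := {{0, 5}, {1, 4}, {2, 3}}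

/-- Abstract rank functions on the subsets of `Fin 6`. -/
structure IsRk6 (ρ : Finset (Fin 6) → ℤ) : Prop where
  empty : ρ ∅ = 0
  mono : ∀ S T, S ⊆ T → ρ S ≤ ρ T
  submod : ∀ S T, ρ (S ∪ T) + ρ (S ∩ T) ≤ ρ S + ρ T
  card : ∀ S, ρ S ≤ S.card
  unit : ∀ S x, ρ (insert x S) ≤ ρ S + 1

set_option maxRecDepth 100000 in
theorem fact_pair : ∀ L ∈ lines, ∀ S : Finset (Fin 6), 2 ≤ (L ∩ S).card →
    ∃ P ⊆ L ∩ S, P.card = 2 ∧ P ∉ opp := by decide

theorem fact_chain : ∀ T : Finset (Fin 6), T.card = 3 → T ∉ lines →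
    ∃ L₁ ∈ lines, ∃ L₂ ∈ lines, ∃ L₃ ∈ lines, 2 ≤ (L₁ ∩ T).card ∧ 2 ≤ (L₂ ∩ (T ∪ L₁)).card ∧
      2 ≤ (L₃ ∩ (T ∪ L₁ ∪ L₂)).card ∧ T ∪ L₁ ∪ L₂ ∪ L₃ = Finset.univ := by decide

theorem fact_triple : ∀ S : Finset (Fin 6), 3 ≤ S.card → S ∉ lines →
    ∃ T ⊆ S, T.card = 3 ∧ T ∉ lines := by decide

theorem fact_opp : ∀ P ∈ opp, ∃ x, (insert x P).card = 3 ∧ insert x P ∉ lines := by decide

theorem fact_single : ∀ S : Finset (Fin 6), S.card = 1 → ∃ x, (insert x S).card = 2 ∧
    insert x S ∉ opp := by decide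

theorem fact_line : ∀ L ∈ lines, ∃ P ⊆ L, P.card = 2 ∧ P ∉ opp := by decide

theorem fact_line_card : ∀ L ∈ lines, L.card = 3 := by decide

theorem crit {ρ : Finset (Fin 6) → ℤ} (h : IsRk6 ρ)
    (hpair : ∀ P : Finset (Fin 6), P.card = 2 → P ∉ opp → 2 ≤ ρ P)
    (hline : ∀ L ∈ lines, ρ L ≤ 2) (hall : 3 ≤ ρ Finset.univ) (S : Finset (Fin 6)) :
    ρ S = kap S := by
  have hstep : ∀ L ∈ lines, ∀ S : Finset (Fin 6), 2 ≤ (L ∩ S).card → ρ (S ∪ L) ≤ ρ S := by
    intro L hL S hS
    obtain ⟨P, hP, hP2, hPo⟩ := fact_pair L hL S hS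
    have h1 := h.submod S L
    have h2 := hpair P hP2 hPo
    have h3 := h.mono P (S ∩ L) (by rw [Finset.inter_comm]; exact hP)
    have h4 := hline L hL
    linarith
  have hspan : ∀ T : Finset (Fin 6), T.card = 3 → T ∉ lines → ρ Finset.univ ≤ ρ T := by
    intro T hT hTl
    obtain ⟨L₁, h1, L₂, h2, L₃, h3, c1, c2, c3, hu⟩ := fact_chain T hT hTl
    have e1 := hstep L₁ h1 T c1
    have e2 := hstep L₂ h2 _ c2
    have e3 := hstep L₃ h3 _ c3
    rw [hu] at e3
    linarith
  have huniv : ρ Finset.univ ≤ 3 := by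
    have h1 := hspan {0, 1, 3} (by decide) (by decide)
    have h2 := h.card {0, 1, 3}
    have h3 : (({0, 1, 3} : Finset (Fin 6)).card : ℤ) = 3 := by decide
    linarith
  have htop := h.mono S Finset.univ (Finset.subset_univ S)
  have hc := h.card S
  by_cases hl : S ∈ lines
  · obtain ⟨P, hP, hP2, hPo⟩ := fact_line S hl
    have h1 := hline S hl
    have h2 := h.mono P S hP
    have h3 := hpair P hP2 hPo
    rw [kap, if_pos hl]
    linarith
  · rw [kap, if_neg hl]
    rcases Nat.lt_or_ge S.card 3 with h3 | h3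
    · have hm : min S.card 3 = S.card := min_eq_left h3.le
      rw [hm]
      refine le_antisymm hc ?_
      interval_cases hS : S.card
      · rw [Finset.card_eq_zero] at hS
        rw [hS, h.empty]; simp
      · obtain ⟨x, hx, hxo⟩ := fact_single S hS
        have h1 := hpair _ hx hxo
        have h2 := h.unit S x
        push_cast
        linarith
      · by_cases hSo : S ∈ opp
        · obtain ⟨x, hx, hxo⟩ := fact_opp S hSo
          have h1 := hspan _ hx hxo
          have h2 := h.unit S x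
          push_cast
          linarith
        · have := hpair S hS hSo
          push_cast
          linarith
    · have hm : min S.card 3 = 3 := min_eq_right h3
      rw [hm]
      obtain ⟨T, hT, hT3, hTl⟩ := fact_triple S h3 hl
      have h1 := hspan T hT3 hTl
      have h2 := h.mono T S hT
      push_cast
      linarith

end Pool.Agent.H863.K4
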