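import Pool.Agent.H863.K4.Forest
import Pool.Agent.H863.K4.Induce2

/-!
# Minors isomorphic to `M(K₄)` and rank functions
-/

namespace Pool.Agent.H863.K4

open Set Pool.Agent.Helper666.FinGen
open scoped Matroid

/-- `M` is isomorphic to `M(K₄)`, the cycle matroid of the complete graph on four vertices: under
some bijection from the ground set of `M` to the edge set of `K₄`, the independent sets of `M`
correspond to the sets of edges that form a forest. -/
def IsMK4 {α : Type} (M : Matroid α) : Prop :=
  ∃ e : M.E ≃ (⊤ : SimpleGraph (Fin 4)).edgeSet, ∀ I : Set M.E,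
    M.Indep (Subtype.val '' I) ↔ (SimpleGraph.fromEdgeSet (Subtype.val '' (e '' I))).IsAcyclic

/-- The class `𝒦` of the finite matroids with no minor isomorphic to `M(K₄)`. -/
def NoMK4Minor : MatClass := fun _ M => M.Finite ∧ ∀ N, N ≤m M → ¬ IsMK4 N

theorem contract_finite {α : Type} (M : Matroid α) [M.Finite] (X : Set α) : (M ／ X).Finite :=
  ⟨M.ground_finite.subset sdiff_subset⟩

theorem rk_contract {α : Type} (M : Matroid α) [M.Finite] (X S : Set α) :
    rk (M ／ X) S = rk M (S ∪ X) - rk M X := by
  have := contract_finite M X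
  obtain ⟨J, hJ⟩ := M.exists_isBasis' X
  have hJr : rk M X = J.ncard := by
    unfold rk; rw [hJ.eRk_eq_encard]; rfl
  have hJfin : J.Finite := M.ground_finite.subset hJ.indep.subset_ground
  apply le_antisymm
  · obtain ⟨I, hIS, hI, hr⟩ := exists_indep (M ／ X) S
    rw [hJ.contract_indep_iff] at hI
    have hIfin : I.Finite := M.ground_finite.subset
      ((hI.1.subset subset_union_left).subset_ground)
    have h1 := ncard_le_rk M hI.1 (Set.union_subset_union hIS hJ.subset)
    have h2 : Disjoint I J := hI.2.symm.mono_right hJ.subset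
    rw [Set.ncard_union_eq h2 hIfin hJfin] at h1
    push_cast at h1
    linarith
  · obtain ⟨K, hK, hJK⟩ := hJ.indep.subset_isBasis'_of_subset
      (hJ.subset.trans (Set.subset_union_right (s := S)))
    have hKr : rk M (S ∪ X) = K.ncard := by
      unfold rk; rw [hK.eRk_eq_encard]; rfl
    have hKfin : K.Finite := M.ground_finite.subset hK.indep.subset_ground
    have hKX : K ∩ X ⊆ J := by
      have h1 : J = K ∩ X := hJ.eq_of_subset_indep (hK.indep.subset inter_subset_left)
        (subset_inter hJK hJ.subset) inter_subset_right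
      exact h1.symm.subset
    have hI : (M ／ X).Indep (K \ J) := by
      rw [hJ.contract_indep_iff]
      refine ⟨?_, ?_⟩
      · rw [Set.sdiff_union_of_subset hJK]; exact hK.indep
      · rw [Set.disjoint_left]
        intro x hx hx'
        exact hx'.2 (hKX ⟨hx'.1, hx⟩)
    have h1 := ncard_le_rk (M ／ X) hI (X := S) (by
      intro x hx
      rcases hK.subset hx.1 with h | h
      · exact h
      · exact absurd (hKX ⟨hx.1, h⟩) hx.2)
    have h2 := Set.ncard_sdiff_add_ncard_of_subset hJK hKfin
    have h3 : ((K \ J).ncard : ℤ) + J.ncard = K.ncard := by exact_mod_cast h2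
    linarith

theorem indep_iff_rk {α : Type} (M : Matroid α) [M.Finite] {I : Set α} (hI : I.Finite) :
    M.Indep I ↔ rk M I = I.ncard := by
  constructor
  · exact fun h => rk_indep M h
  · intro h
    exact indep_of_ncard_le M hI h.symm.le

theorem fact_kap1 : ∀ S : Finset (Fin 6), ∃ S' : Finset (Fin 6), S' ⊆ S ∧ kap S' = S'.card ∧
    kap S = S'.card := by decide

set_option maxRecDepth 100000 in
theorem fact_kap2 : ∀ S S' : Finset (Fin 6), S' ⊆ S → kap S' = S'.card → (S'.card : ℤ) ≤ kap S := by
  decide

/-- a matroid on six elements with the right independent sets has rank function `kap` -/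
theorem rk_eq_kap {α : Type} (N : Matroid α) [N.Finite] {g : Fin 6 → α}
    (hg : Function.Injective g)
    (h : ∀ S : Finset (Fin 6), N.Indep (g '' S) ↔ kap S = S.card) (S : Finset (Fin 6)) :
    rk N (g '' S) = kap S := by
  classical
  apply le_antisymm
  · obtain ⟨I, hIS, hI, hr⟩ := exists_indep N (g '' S)
    obtain ⟨S', hS'⟩ : ∃ S' : Finset (Fin 6), S' ⊆ S ∧ g '' S' = I := by
      refine ⟨S.filter (fun i => g i ∈ I), Finset.filter_subset _ _, ?_⟩
      ext x
      simp only [Finset.coe_filter, Set.mem_image, Set.mem_ofPred_eq]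
      constructor
      · rintro ⟨i, ⟨_, hi⟩, rfl⟩
        exact hi
      · intro hx
        obtain ⟨i, hi, rfl⟩ := hIS hx
        exact ⟨i, ⟨hi, hx⟩, rfl⟩
    obtain ⟨hsub, rfl⟩ := hS'
    rw [h] at hI
    rw [← hr, Set.ncard_image_of_injective _ hg, Set.ncard_coe_finset]
    exact fact_kap2 S S' hsub hI
  · obtain ⟨S', hsub, h1, h2⟩ := fact_kap1 S
    rw [h2]
    have h3 := (h S').mpr h1
    have h4 := ncard_le_rk N h3 (Set.image_mono (Finset.coe_subset.mpr hsub))
    rwa [Set.ncard_image_of_injective _ hg, Set.ncard_coe_finset] at h4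

/-- the edge set of `K₄` in numbered form -/
noncomputable def edEquiv : Fin 6 ≃ (⊤ : SimpleGraph (Fin 4)).edgeSet :=
  Equiv.ofBijective (fun i => ⟨ed i, by
    rw [SimpleGraph.edgeSet_top]
    exact ed_not_diag i⟩) ⟨fun i j h => ed_injective (congrArg Subtype.val h), by
    rintro ⟨e, he⟩
    induction e using Sym2.ind with
    | _ a b =>
      rw [SimpleGraph.mem_edgeSet, SimpleGraph.top_adj] at he
      obtain ⟨i, hi⟩ := ed_surj a b he
      exact ⟨i, Subtype.ext hi⟩⟩

theorem edEquiv_val (i : Fin 6) : ((edEquiv i : (⊤ : SimpleGraph (Fin 4)).edgeSet) : Sym2 (Fin 4)) =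
    ed i := rfl

theorem isMK4_iff {α : Type} (N : Matroid α) [N.Finite] : IsMK4 N ↔
    ∃ g : Fin 6 → α, Function.Injective g ∧ range g = N.E ∧
      ∀ S : Finset (Fin 6), rk N (g '' S) = kap S := by
  classical
  constructor
  · rintro ⟨e, he⟩
    refine ⟨fun i => (e.symm (edEquiv i) : α), ?_, ?_, ?_⟩
    · intro i j hij
      exact edEquiv.injective (e.symm.injective (Subtype.ext hij))
    · ext x
      constructor
      · rintro ⟨i, rfl⟩
        exact (e.symm (edEquiv i)).2
      · intro hx
        refine ⟨edEquiv.symm (e ⟨x, hx⟩), ?_⟩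
        simp
    · have hinj : Function.Injective (fun i => (e.symm (edEquiv i) : α)) := by
        intro i j hij
        exact edEquiv.injective (e.symm.injective (Subtype.ext hij))
      refine rk_eq_kap N hinj ?_
      intro S
      have h1 := he ((fun i => e.symm (edEquiv i)) '' (↑S : Set (Fin 6)))
      rw [← Set.image_comp, ← Set.image_comp, ← Set.image_comp] at h1
      have h2 : ((Subtype.val ∘ e) ∘ fun i => e.symm (edEquiv i)) = ed := by
        funext i
        simp only [Function.comp_apply, Equiv.apply_symm_apply]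
        rfl
      have h3 : (Subtype.val ∘ fun i => e.symm (edEquiv i)) =
        (fun i => (e.symm (edEquiv i) : α)) := rfl
      rw [h3] at h1
      rw [h1, ← acyclic_iff]
      unfold gr
      rw [← h2]
  · rintro ⟨g, hinj, hrange, hrk⟩
    let e₁ : Fin 6 ≃ N.E := (Equiv.ofInjective g hinj).trans (Equiv.setCongr hrange)
    have he₁ : ∀ i, (e₁ i : α) = g i := fun i => rfl
    refine ⟨e₁.symm.trans edEquiv, ?_⟩
    intro I
    set S : Finset (Fin 6) := Finset.univ.filter (fun i => e₁ i ∈ I) with hS
    have h1 : (Subtype.val '' I : Set α) = g '' (↑S : Set (Fin 6)) := by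
      ext x
      constructor
      · rintro ⟨y, hy, rfl⟩
        refine ⟨e₁.symm y, ?_, ?_⟩
        · simp [hS, hy]
        · rw [← he₁]; simp
      · rintro ⟨i, hi, rfl⟩
        refine ⟨e₁ i, ?_, he₁ i⟩
        simpa [hS] using hi
    have h2 : (Subtype.val '' ((e₁.symm.trans edEquiv) '' I) : Set (Sym2 (Fin 4))) =
        ed '' (↑S : Set (Fin 6)) := by
      ext x
      constructor
      · rintro ⟨_, ⟨y, hy, rfl⟩, rfl⟩
        refine ⟨e₁.symm y, ?_, ?_⟩
        · simp [hS, hy]
        · simp [edEquiv_val]
      · rintro ⟨i, hi, rfl⟩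
        refine ⟨edEquiv i, ⟨e₁ i, ?_, ?_⟩, edEquiv_val i⟩
        · simpa [hS] using hi
        · simp
    rw [h1, h2]
    have h3 := acyclic_iff S
    unfold gr at h3
    rw [h3, indep_iff_rk N (Set.toFinite _), hrk, Set.ncard_image_of_injective _ hinj,
      Set.ncard_coe_finset]

theorem exists_minor_iff {α : Type} (M : Matroid α) [M.Finite] :
    (∃ N, N ≤m M ∧ IsMK4 N) ↔ HasK4 (rk M) := by
  constructor
  · rintro ⟨N, ⟨C, D, rfl⟩, hN⟩
    have := contract_finite M C
    have : ((M ／ C) ＼ D).Finite := ⟨(M ／ C).ground_finite.subset sdiff_subset⟩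
    rw [isMK4_iff] at hN
    obtain ⟨g, hinj, hrange, hrk⟩ := hN
    refine ⟨C, g, fun S => ?_⟩
    have h1 := hrk S
    have h2 : g '' (↑S : Set (Fin 6)) ⊆ (M ／ C).E \ D := by
      rw [← Matroid.delete_ground, ← hrange]
      exact Set.image_subset_range _ _
    rw [Matroid.delete_eq_restrict, rk_restrict, Set.inter_eq_self_of_subset_left h2, rk_contract] at h1
    rw [Set.union_comm]
    linarith
  · rintro ⟨X, g, hg⟩
    have hinj := HasK4.injective hg
    have hnot := HasK4.notMem hg
    have hE : ∀ i, g i ∈ M.E := by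
      intro i
      by_contra hi
      have a1 := hg {i}
      rw [kap_one, Finset.coe_singleton, Set.image_singleton, Set.union_singleton,
        ← rk_inter_ground M (insert (g i) X), Set.insert_inter_of_notMem hi, rk_inter_ground] at a1
      linarith
    have hsub : range g ⊆ (M ／ X).E := by
      rintro x ⟨i, rfl⟩
      exact ⟨hE i, hnot i⟩
    have := contract_finite M X
    have : ((M ／ X) ↾ (range g)).Finite := ⟨Set.finite_range g⟩
    refine ⟨(M ／ X) ↾ (range g), ?_, ?_⟩
    · refine ⟨X, (M ／ X).E \ range g, ?_⟩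
      rw [Matroid.delete_compl hsub]
    · rw [isMK4_iff]
      refine ⟨g, hinj, rfl, fun S => ?_⟩
      rw [rk_restrict, Set.inter_eq_self_of_subset_left (Set.image_subset_range _ _), rk_contract,
        Set.union_comm, hg S]
      ring

theorem noMK4Minor_iff {α : Type} (M : Matroid α) [M.Finite] :
    NoMK4Minor α M ↔ ¬ HasK4 (rk M) := by
  rw [← exists_minor_iff]
  constructor
  · rintro ⟨_, h⟩ ⟨N, h1, h2⟩
    exact h N h1 h2
  · intro h
    exact ⟨inferInstance, fun N h1 h2 => h ⟨N, h1, h2⟩⟩

end Pool.Agent.H863.K4
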