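import Pool.Agent.H863.K4.Ext

/-!
# Principal extensions create no new `M(K₄)`-minor
-/

namespace Pool.Agent.H863.K4

open Set

variable {U : Type}

/-- the data of an `M(K₄)` in a principal truncation -/
structure Cfg (r : Set U → ℤ) (F X : Set U) (g : Fin 6 → U) : Prop where
  eq : ∀ S : Finset (Fin 6), min (r (X ∪ g '' S) + 1) (r (X ∪ g '' S ∪ F)) = r X + 1 + kap S

theorem kap_pair : ∀ P : Finset (Fin 6), P.card = 2 → kap P = 2 := by decide

theorem kap_triple : ∀ P : Finset (Fin 6), P.card = 3 → P ∉ lines → kap P = 3 := by decide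

theorem kap_line : ∀ P ∈ lines, kap P = 2 := by decide

theorem fact_p5 : ∀ P : Finset (Fin 6), P.card = 2 → P ∉ opp → 5 ∉ P →
    (insert 5 P).card = 3 ∧ (insert 5 P ∉ lines ∨ insert 5 P = {1, 3, 5} ∨
      insert 5 P = {2, 4, 5}) := by decide

theorem Cfg.main2 [Finite U] {r : Set U → ℤ} (h : IsRk r) {F X : Set U} {g : Fin 6 → U}
    (hc : Cfg r F X g)
    (h1 : r (X ∪ g '' (↑({0, 1, 2} : Finset (Fin 6)) : Set (Fin 6))) ≤ r X + 2)
    (h2 : r (X ∪ g '' (↑({0, 3, 4} : Finset (Fin 6)) : Set (Fin 6))) ≤ r X + 2)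
    (h3 : r X + 3 ≤ r (X ∪ g '' (↑({1, 3, 5} : Finset (Fin 6)) : Set (Fin 6))))
    (h4 : r X + 3 ≤ r (X ∪ g '' (↑({2, 4, 5} : Finset (Fin 6)) : Set (Fin 6))))
    (h3' : r (X ∪ g '' (↑({1, 3, 5} : Finset (Fin 6)) : Set (Fin 6)) ∪ F) ≤ r X + 3)
    (h4' : r (X ∪ g '' (↑({2, 4, 5} : Finset (Fin 6)) : Set (Fin 6)) ∪ F) ≤ r X + 3)
    (h5 : r (X ∪ g '' (↑({5} : Finset (Fin 6)) : Set (Fin 6)) ∪ F) ≤ r X + 2)
    (hu : r X + 4 ≤ r (X ∪ g '' (↑(Finset.univ : Finset (Fin 6)) : Set (Fin 6)))) :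
    HasK4 r := by
  -- rank of the fifth element
  have hX5 : X ∪ g '' (↑({5} : Finset (Fin 6)) : Set (Fin 6)) = insert (g 5) X := by
    rw [Finset.coe_singleton, Set.image_singleton, Set.union_singleton]
  rw [hX5] at h5
  have k5 : kap {5} = 1 := by decide
  have e5 := hc.eq {5}
  rw [hX5, k5] at e5
  have u5 := h.unit X (g 5)
  have l5 : r X + 1 ≤ r (insert (g 5) X) := by
    have := min_le_left (r (insert (g 5) X) + 1) (r (insert (g 5) X ∪ F))
    linarith
  have l5' : r X + 2 ≤ r (insert (g 5) X ∪ F) := by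
    have := min_le_right (r (insert (g 5) X) + 1) (r (insert (g 5) X ∪ F))
    linarith
  obtain ⟨p, hpF, hp⟩ := h.exists_aug (Y := insert (g 5) X) (F := F) (by linarith)
  have hX' : r (insert (g 5) X) = r X + 1 := le_antisymm u5 l5
  have hg' : ∀ i : Fin 6, i ≠ 5 → Function.update g 5 p i = g i := fun i hi =>
    Function.update_of_ne hi _ _
  have hg5 : Function.update g 5 p 5 = p := Function.update_self _ _ _
  refine hasK4_of h (insert (g 5) X) (Function.update g 5 p) ?_ ?_ ?_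
  · intro P hP hPo
    by_cases hm : (5 : Fin 6) ∈ P
    · -- submodularity
      have hsub := h.union_le (A := insert (g 5) X ∪ Function.update g 5 p '' P)
        (B := insert (g 5) X ∪ F) (C := X ∪ g '' P ∪ F) (D := insert p (insert (g 5) X))
        (by
          rintro x ((hx | ⟨i, hi, rfl⟩) | hx)
          · exact Or.inl (Or.inl (Set.mem_insert_of_mem _ hx))
          · by_cases h5i : i = 5
            · subst h5i
              exact Or.inl (Or.inl (Set.mem_insert _ _))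
            · exact Or.inl (Or.inr ⟨i, hi, hg' i h5i⟩)
          · exact Or.inr (Or.inr hx))
        (by
          rintro x (rfl | hx)
          · exact ⟨Or.inr ⟨5, hm, hg5⟩, Or.inr hpF⟩
          · exact ⟨Or.inl hx, Or.inl hx⟩)
      have e1 := hc.eq P
      rw [kap_pair P hP] at e1
      have := min_le_right (r (X ∪ g '' P) + 1) (r (X ∪ g '' P ∪ F))
      linarith
    · obtain ⟨hc3, hcases⟩ := fact_p5 P hP hPo hm
      have hmono : r (X ∪ g '' (↑(insert 5 P) : Set (Fin 6))) ≤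
          r (insert (g 5) X ∪ Function.update g 5 p '' P) := by
        apply h.mono
        rw [image_insert']
        rintro x (hx | rfl | ⟨i, hi, rfl⟩)
        · exact Or.inl (Set.mem_insert_of_mem _ hx)
        · exact Or.inl (Set.mem_insert _ _)
        · exact Or.inr ⟨i, hi, hg' i (by rintro rfl; exact hm hi)⟩
      have hge : r X + 3 ≤ r (X ∪ g '' (↑(insert 5 P) : Set (Fin 6))) := by
        rcases hcases with hl | hl | hl
        · have e1 := hc.eq (insert 5 P)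
          rw [kap_triple _ hc3 hl] at e1
          have := min_le_left (r (X ∪ g '' (↑(insert 5 P) : Set (Fin 6))) + 1)
            (r (X ∪ g '' (↑(insert 5 P) : Set (Fin 6)) ∪ F))
          linarith
        · rw [hl]; exact h3
        · rw [hl]; exact h4
      linarith
  · intro L hL
    have hno : ∀ L : Finset (Fin 6), (5 : Fin 6) ∉ L →
        r (insert (g 5) X ∪ Function.update g 5 p '' L) ≤ r (X ∪ g '' L) + 1 := by
      intro L hL
      refine le_trans (h.mono ?_) (h.unit (X ∪ g '' L) (g 5))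
      rintro x ((rfl | hx) | ⟨i, hi, rfl⟩)
      · exact Set.mem_insert _ _
      · exact Set.mem_insert_of_mem _ (Or.inl hx)
      · exact Set.mem_insert_of_mem _ (Or.inr ⟨i, hi, (hg' i (by rintro rfl; exact hL hi)).symm⟩)
    have hyes : ∀ L : Finset (Fin 6), (5 : Fin 6) ∈ L →
        r (insert (g 5) X ∪ Function.update g 5 p '' L) ≤ r (X ∪ g '' L ∪ F) := by
      intro L hL
      apply h.mono
      rintro x ((rfl | hx) | ⟨i, hi, rfl⟩)
      · exact Or.inl (Or.inr ⟨5, hL, rfl⟩)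
      · exact Or.inl (Or.inl hx)
      · by_cases h5i : i = 5
        · subst h5i
          rw [hg5]
          exact Or.inr hpF
        · rw [hg' i h5i]
          exact Or.inl (Or.inr ⟨i, hi, rfl⟩)
    simp only [lines, Finset.mem_insert, Finset.mem_singleton] at hL
    rcases hL with rfl | rfl | rfl | rfl
    · have := hno _ (show (5 : Fin 6) ∉ ({0, 1, 2} : Finset (Fin 6)) by decide)
      linarith
    · have := hno _ (show (5 : Fin 6) ∉ ({0, 3, 4} : Finset (Fin 6)) by decide)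
      linarith
    · have := hyes _ (show (5 : Fin 6) ∈ ({1, 3, 5} : Finset (Fin 6)) by decide)
      linarith
    · have := hyes _ (show (5 : Fin 6) ∈ ({2, 4, 5} : Finset (Fin 6)) by decide)
      linarith
  · have : r (X ∪ g '' (↑(Finset.univ : Finset (Fin 6)) : Set (Fin 6))) ≤
        r (insert (g 5) X ∪ Function.update g 5 p ''
          (↑(Finset.univ : Finset (Fin 6)) : Set (Fin 6))) := by
      apply h.mono
      rintro x (hx | ⟨i, hi, rfl⟩)
      · exact Or.inl (Set.mem_insert_of_mem _ hx)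
      · by_cases h5i : i = 5
        · subst h5i
          exact Or.inl (Set.mem_insert _ _)
        · exact Or.inr ⟨i, hi, hg' i h5i⟩
    linarith

set_option maxRecDepth 100000 in
theorem fact_three : ∀ L₁ ∈ lines, ∀ L₂ ∈ lines, ∀ L₃ ∈ lines, L₁ ≠ L₂ → L₁ ≠ L₃ → L₂ ≠ L₃ →
    ∃ T : Finset (Fin 6), T.card = 3 ∧ 2 ≤ (L₁ ∩ T).card ∧ 2 ≤ (L₂ ∩ (T ∪ L₁)).card ∧
      2 ≤ (L₃ ∩ (T ∪ L₁ ∪ L₂)).card ∧ T ∪ L₁ ∪ L₂ ∪ L₃ = Finset.univ := by decide

set_option maxRecDepth 100000 in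
theorem fact_two : ∀ L₁ ∈ lines, ∀ L₂ ∈ lines, L₁ ≠ L₂ → ∃ x, L₁ ∩ L₂ = {x} ∧
    ∃ T : Finset (Fin 6), T ⊆ L₁ ∪ L₂ ∧ T.card = 3 ∧ T ∉ lines := by decide

set_option maxRecDepth 100000 in
theorem fact_pts : ∀ L₁ ∈ lines, ∀ L₂ ∈ lines, ∀ L₃ ∈ lines, L₁ ≠ L₂ → L₁ ≠ L₃ → L₂ ≠ L₃ →
    ∀ x y, L₁ ∩ L₂ = {x} → L₁ ∩ L₃ = {y} → ({x, y} : Finset (Fin 6)).card = 2 := by decide

theorem comp_image (g : Fin 6 → U) (σ : Fin 6 → Fin 6) (S : Finset (Fin 6)) :
    (g ∘ σ) '' (↑S : Set (Fin 6)) = g '' (↑(S.image σ) : Set (Fin 6)) := by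
  rw [Set.image_comp, Finset.coe_image]

theorem Cfg.main3 [Finite U] {r : Set U → ℤ} (h : IsRk r) {F X : Set U} {g : Fin 6 → U}
    (hc : Cfg r F X g) (σ : Fin 6 → Fin 6) (hσ : ∀ S : Finset (Fin 6), kap (S.image σ) = kap S)
    {A B C D : Finset (Fin 6)} {x : Fin 6}
    (hA : ({0, 1, 2} : Finset (Fin 6)).image σ = A) (hB : ({0, 3, 4} : Finset (Fin 6)).image σ = B)
    (hC : ({1, 3, 5} : Finset (Fin 6)).image σ = C) (hD : ({2, 4, 5} : Finset (Fin 6)).image σ = D)
    (hx : ({5} : Finset (Fin 6)).image σ = {x})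
    (hu' : (Finset.univ : Finset (Fin 6)).image σ = Finset.univ)
    (h1 : r (X ∪ g '' A) ≤ r X + 2) (h2 : r (X ∪ g '' B) ≤ r X + 2)
    (h3 : r X + 3 ≤ r (X ∪ g '' C)) (h4 : r X + 3 ≤ r (X ∪ g '' D))
    (h3' : r (X ∪ g '' C ∪ F) ≤ r X + 3) (h4' : r (X ∪ g '' D ∪ F) ≤ r X + 3)
    (h5 : r (X ∪ g '' (↑({x} : Finset (Fin 6)) : Set (Fin 6)) ∪ F) ≤ r X + 2)
    (hu : r X + 3 < r (X ∪ g '' (↑(Finset.univ : Finset (Fin 6)) : Set (Fin 6)))) :
    HasK4 r := by
  have hc' : Cfg r F X (g ∘ σ) := ⟨fun S => by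
    rw [comp_image, hc.eq, hσ]⟩
  refine hc'.main2 h ?_ ?_ ?_ ?_ ?_ ?_ ?_ ?_ <;> rw [comp_image]
  · rw [hA]; exact h1
  · rw [hB]; exact h2
  · rw [hC]; exact h3
  · rw [hD]; exact h4
  · rw [hC]; exact h3'
  · rw [hD]; exact h4'
  · rw [hx]; exact h5
  · rw [hu']; linarith

theorem Cfg.main [Finite U] {r : Set U → ℤ} (h : IsRk r) {F X : Set U} {g : Fin 6 → U}
    (hc : Cfg r F X g) (hF : r X + 2 ≤ r (X ∪ F)) : HasK4 r := by
  have hmono : ∀ S T : Finset (Fin 6), S ⊆ T → r (X ∪ g '' S) ≤ r (X ∪ g '' T) :=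
    fun S T hST => h.mono (Set.union_subset_union_right X (Set.image_mono
      (Finset.coe_subset.mpr hST)))
  have hmonoF : ∀ S T : Finset (Fin 6), S ⊆ T → r (X ∪ g '' S ∪ F) ≤ r (X ∪ g '' T ∪ F) :=
    fun S T hST => h.mono (Set.union_subset_union_left F (Set.union_subset_union_right X
      (Set.image_mono (Finset.coe_subset.mpr hST))))
  have hsub : ∀ S T : Finset (Fin 6), r (X ∪ g '' (↑(S ∪ T) : Set (Fin 6))) +
      r (X ∪ g '' (↑(S ∩ T) : Set (Fin 6))) ≤ r (X ∪ g '' S) + r (X ∪ g '' T) := by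
    intro S T
    have := (h.isRk6 X g).submod S T
    have h' : (r (X ∪ g '' (↑(S ∪ T) : Set (Fin 6))) - r X) +
      (r (X ∪ g '' (↑(S ∩ T) : Set (Fin 6))) - r X) ≤
      (r (X ∪ g '' S) - r X) + (r (X ∪ g '' T) - r X) := this
    linarith
  have hmix : ∀ S T : Finset (Fin 6), S ⊆ T → r (X ∪ g '' T ∪ F) + r (X ∪ g '' S) ≤
      r (X ∪ g '' S ∪ F) + r (X ∪ g '' T) := by
    intro S T hST
    apply h.union_le
    · rintro x ((hx | hx) | hx)
      · exact Or.inr (Or.inl hx)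
      · exact Or.inr (Or.inr hx)
      · exact Or.inl (Or.inr hx)
    · rintro x hx
      refine ⟨Or.inl hx, ?_⟩
      exact Set.union_subset_union_right X (Set.image_mono (Finset.coe_subset.mpr hST)) hx
  have hpair : ∀ P : Finset (Fin 6), P.card = 2 → r X + 2 ≤ r (X ∪ g '' P) ∧
      r X + 3 ≤ r (X ∪ g '' P ∪ F) := by
    intro P hP
    have e1 := hc.eq P
    rw [kap_pair P hP] at e1
    have h1 := min_le_left (r (X ∪ g '' P) + 1) (r (X ∪ g '' P ∪ F))
    have h2 := min_le_right (r (X ∪ g '' P) + 1) (r (X ∪ g '' P ∪ F))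
    constructor <;> linarith
  by_cases hun : r (X ∪ g '' (↑(Finset.univ : Finset (Fin 6)) : Set (Fin 6))) ≤ r X + 3
  · refine ⟨X, g, fun S => ?_⟩
    have e1 := hc.eq Finset.univ
    have k1 : kap Finset.univ = 3 := by decide
    rw [k1] at e1
    have h1 := min_le_right (r (X ∪ g '' (↑(Finset.univ : Finset (Fin 6)) : Set (Fin 6))) + 1)
      (r (X ∪ g '' (↑(Finset.univ : Finset (Fin 6)) : Set (Fin 6)) ∪ F))
    have h2 := hmix S Finset.univ (Finset.subset_univ S)
    have e2 := hc.eq S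
    rw [min_eq_left (by linarith)] at e2
    linarith
  · push Not at hun
    have hline : ∀ L ∈ lines, r (X ∪ g '' L) ≤ r X + 2 ∨
        (r X + 3 ≤ r (X ∪ g '' L) ∧ r (X ∪ g '' L ∪ F) ≤ r X + 3) := by
      intro L hL
      rcases lt_or_ge (r X + 2) (r (X ∪ g '' L)) with hlt | hle
      · right
        refine ⟨by linarith, ?_⟩
        have e1 := hc.eq L
        rw [kap_line L hL] at e1
        rcases min_cases (r (X ∪ g '' L) + 1) (r (X ∪ g '' L ∪ F)) with ⟨e2, _⟩ | ⟨e2, _⟩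
        · rw [e2] at e1; linarith
        · rw [e2] at e1; linarith
      · exact Or.inl hle
    have hthree : ∀ L₁ ∈ lines, ∀ L₂ ∈ lines, ∀ L₃ ∈ lines, L₁ ≠ L₂ → L₁ ≠ L₃ → L₂ ≠ L₃ →
        r (X ∪ g '' L₁) ≤ r X + 2 → r (X ∪ g '' L₂) ≤ r X + 2 → r (X ∪ g '' L₃) ≤ r X + 2 →
        False := by
      intro L₁ m1 L₂ m2 L₃ m3 n1 n2 n3 h1 h2 h3
      obtain ⟨T, hT, c1, c2, c3, hu⟩ := fact_three L₁ m1 L₂ m2 L₃ m3 n1 n2 n3
      have hstep : ∀ L ∈ lines, r (X ∪ g '' L) ≤ r X + 2 → ∀ S : Finset (Fin 6),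
          2 ≤ (L ∩ S).card → r (X ∪ g '' (↑(S ∪ L) : Set (Fin 6))) ≤ r (X ∪ g '' S) := by
        intro L hL hL2 S hS
        obtain ⟨P, hP, hP2, hPo⟩ := fact_pair L hL S hS
        have a1 := hsub S L
        have a2 := (hpair P hP2).1
        have a3 := hmono P (S ∩ L) (by rw [Finset.inter_comm]; exact hP)
        linarith
      have e1 := hstep L₁ m1 h1 T c1
      have e2 := hstep L₂ m2 h2 _ c2
      have e3 := hstep L₃ m3 h3 _ c3
      rw [hu] at e3
      have hcard := (h.isRk6 X g).card T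
      have hcard' : r (X ∪ g '' T) - r X ≤ T.card := hcard
      rw [hT] at hcard'
      push_cast at hcard'
      linarith
    have htwo : ∀ L₁ ∈ lines, ∀ L₂ ∈ lines, L₁ ≠ L₂ →
        r (X ∪ g '' L₁ ∪ F) ≤ r X + 3 → r (X ∪ g '' L₂ ∪ F) ≤ r X + 3 → ∀ x, L₁ ∩ L₂ = {x} →
        r (X ∪ g '' (↑({x} : Finset (Fin 6)) : Set (Fin 6)) ∪ F) ≤ r X + 2 := by
      intro L₁ m1 L₂ m2 hne h1 h2 x hx
      obtain ⟨_, _, T, hT, hT3, hTl⟩ := fact_two L₁ m1 L₂ m2 hne
      have e1 := hc.eq T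
      rw [kap_triple T hT3 hTl] at e1
      have a1 := min_le_right (r (X ∪ g '' T) + 1) (r (X ∪ g '' T ∪ F))
      have a2 := h.union_le (A := X ∪ g '' L₁ ∪ F) (B := X ∪ g '' L₂ ∪ F)
        (C := X ∪ g '' T ∪ F) (D := X ∪ g '' (↑({x} : Finset (Fin 6)) : Set (Fin 6)) ∪ F)
        (by
          rintro y ((hy | ⟨i, hi, rfl⟩) | hy)
          · exact Or.inl (Or.inl (Or.inl hy))
          · have := hT (Finset.mem_coe.mp hi)
            rw [Finset.mem_union] at this
            rcases this with hh | hh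
            · exact Or.inl (Or.inl (Or.inr ⟨i, hh, rfl⟩))
            · exact Or.inr (Or.inl (Or.inr ⟨i, hh, rfl⟩))
          · exact Or.inl (Or.inr hy))
        (by
          rw [← hx, Finset.coe_inter]
          rintro y ((hy | ⟨i, hi, rfl⟩) | hy)
          · exact ⟨Or.inl (Or.inl hy), Or.inl (Or.inl hy)⟩
          · exact ⟨Or.inl (Or.inr ⟨i, hi.1, rfl⟩), Or.inl (Or.inr ⟨i, hi.2, rfl⟩)⟩
          · exact ⟨Or.inr hy, Or.inr hy⟩)
      linarith
    have hthree' : ∀ L₁ ∈ lines, ∀ L₂ ∈ lines, ∀ L₃ ∈ lines, L₁ ≠ L₂ → L₁ ≠ L₃ → L₂ ≠ L₃ →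
        r (X ∪ g '' L₁ ∪ F) ≤ r X + 3 → r (X ∪ g '' L₂ ∪ F) ≤ r X + 3 →
        r (X ∪ g '' L₃ ∪ F) ≤ r X + 3 → False := by
      intro L₁ m1 L₂ m2 L₃ m3 n1 n2 n3 h1 h2 h3
      obtain ⟨x, hx, _⟩ := fact_two L₁ m1 L₂ m2 n1
      obtain ⟨y, hy, _⟩ := fact_two L₁ m1 L₃ m3 n2
      have a1 := htwo L₁ m1 L₂ m2 n1 h1 h2 x hx
      have a2 := htwo L₁ m1 L₃ m3 n2 h1 h3 y hy
      have a3 := (hpair _ (fact_pts L₁ m1 L₂ m2 L₃ m3 n1 n2 n3 x y hx hy)).2
      have a4 := h.union_le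
        (A := X ∪ g '' (↑({x} : Finset (Fin 6)) : Set (Fin 6)) ∪ F)
        (B := X ∪ g '' (↑({y} : Finset (Fin 6)) : Set (Fin 6)) ∪ F)
        (C := X ∪ g '' (↑({x, y} : Finset (Fin 6)) : Set (Fin 6)) ∪ F) (D := X ∪ F)
        (by
          rintro z ((hz | ⟨i, hi, rfl⟩) | hz)
          · exact Or.inl (Or.inl (Or.inl hz))
          · rw [Finset.mem_coe, Finset.mem_insert, Finset.mem_singleton] at hi
            rcases hi with rfl | rfl
            · exact Or.inl (Or.inl (Or.inr ⟨i, by simp, rfl⟩))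
            · exact Or.inr (Or.inl (Or.inr ⟨i, by simp, rfl⟩))
          · exact Or.inl (Or.inr hz))
        (by
          rintro z (hz | hz)
          · exact ⟨Or.inl (Or.inl hz), Or.inl (Or.inl hz)⟩
          · exact ⟨Or.inr hz, Or.inr hz⟩)
      linarith
    have mA : ({0, 1, 2} : Finset (Fin 6)) ∈ lines := by decide
    have mB : ({0, 3, 4} : Finset (Fin 6)) ∈ lines := by decide
    have mC : ({1, 3, 5} : Finset (Fin 6)) ∈ lines := by decide
    have mD : ({2, 4, 5} : Finset (Fin 6)) ∈ lines := by decide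
    rcases hline _ mA with hA | ⟨hA, hA'⟩ <;> rcases hline _ mB with hB | ⟨hB, hB'⟩ <;>
      rcases hline _ mC with hC | ⟨hC, hC'⟩ <;> rcases hline _ mD with hD | ⟨hD, hD'⟩
    · exact (hthree _ mA _ mB _ mC (by decide) (by decide) (by decide) hA hB hC).elim
    · exact (hthree _ mA _ mB _ mC (by decide) (by decide) (by decide) hA hB hC).elim
    · exact (hthree _ mA _ mB _ mD (by decide) (by decide) (by decide) hA hB hD).elim
    · exact hc.main3 h ![0, 1, 2, 3, 4, 5] (by decide) (by decide) (by decide) (by decide)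
        (by decide) (by decide) (by decide) hA hB hC hD hC' hD'
        (htwo _ mC _ mD (by decide) hC' hD' 5 (by decide)) hun
    · exact (hthree _ mA _ mC _ mD (by decide) (by decide) (by decide) hA hC hD).elim
    · exact hc.main3 h ![1, 0, 2, 3, 5, 4] (by decide) (by decide) (by decide) (by decide)
        (by decide) (by decide) (by decide) hA hC hB hD hB' hD'
        (htwo _ mB _ mD (by decide) hB' hD' 4 (by decide)) hun
    · exact hc.main3 h ![2, 0, 1, 4, 5, 3] (by decide) (by decide) (by decide) (by decide)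
        (by decide) (by decide) (by decide) hA hD hB hC hB' hC'
        (htwo _ mB _ mC (by decide) hB' hC' 3 (by decide)) hun
    · exact (hthree' _ mB _ mC _ mD (by decide) (by decide) (by decide) hB' hC' hD').elim
    · exact (hthree _ mB _ mC _ mD (by decide) (by decide) (by decide) hB hC hD).elim
    · exact hc.main3 h ![3, 0, 4, 1, 5, 2] (by decide) (by decide) (by decide) (by decide)
        (by decide) (by decide) (by decide) hB hC hA hD hA' hD'
        (htwo _ mA _ mD (by decide) hA' hD' 2 (by decide)) hun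
    · exact hc.main3 h ![4, 0, 3, 2, 5, 1] (by decide) (by decide) (by decide) (by decide)
        (by decide) (by decide) (by decide) hB hD hA hC hA' hC'
        (htwo _ mA _ mC (by decide) hA' hC' 1 (by decide)) hun
    · exact (hthree' _ mA _ mC _ mD (by decide) (by decide) (by decide) hA' hC' hD').elim
    · exact hc.main3 h ![5, 1, 3, 2, 4, 0] (by decide) (by decide) (by decide) (by decide)
        (by decide) (by decide) (by decide) hC hD hA hB hA' hB'
        (htwo _ mA _ mB (by decide) hA' hB' 0 (by decide)) hun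
    · exact (hthree' _ mA _ mB _ mD (by decide) (by decide) (by decide) hA' hB' hD').elim
    · exact (hthree' _ mA _ mB _ mC (by decide) (by decide) (by decide) hA' hB' hC').elim
    · exact (hthree' _ mA _ mB _ mC (by decide) (by decide) (by decide) hA' hB' hC').elim

end Pool.Agent.H863.K4
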