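import Pool.Agent.H863.K4.Step

/-!
# Principal extensions create no new `M(K₄)`-minor: conclusion
-/

namespace Pool.Agent.H863.K4

open Set

variable {U : Type}

theorem fact_p5' : ∀ P : Finset (Fin 6), P.card = 2 → P ∉ opp → 5 ∈ P →
    (P = {1, 5} ∨ P = {3, 5}) ∨ (P = {2, 5} ∨ P = {4, 5}) := by decide

theorem caseC [Finite U] {r : Set U → ℤ} (h : IsRk r) {e : U} {F X : Set U} {g : Fin 6 → U}
    (he : ∀ S, r (insert e S) = r S) (heX : e ∉ X) (hg : g 5 = e) (hne : ∀ i, i ≠ 5 → g i ≠ e)
    (heq : ∀ S : Finset (Fin 6), pext r e F (X ∪ g '' S) = pext r e F X + kap S) : HasK4 r := by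
  have h0 : ∀ S : Finset (Fin 6), (5 : Fin 6) ∉ S → r (X ∪ g '' S) = r X + kap S := by
    intro S hS
    have := heq S
    rwa [pext_notMem heX, pext_notMem] at this
    rintro (hx | ⟨i, hi, hie⟩)
    · exact heX hx
    · exact hne i (by rintro rfl; exact hS hi) hie
  have h1 : ∀ S : Finset (Fin 6), (5 : Fin 6) ∈ S →
      min (r (X ∪ g '' S) + 1) (r (X ∪ g '' S ∪ F)) = r X + kap S := by
    intro S hS
    have := heq S
    rwa [pext_notMem heX, pext_mem] at this
    exact Or.inr ⟨5, hS, hg⟩
  have k5 : kap {5} = 1 := by decide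
  have hins : ∀ (S : Finset (Fin 6)), X ∪ g '' (↑(insert 5 S) : Set (Fin 6)) =
      insert e (X ∪ g '' S) := by
    intro S
    rw [image_insert', hg, Set.union_insert]
  have hF : r X + 1 ≤ r (X ∪ F) := by
    have a1 := h1 {5} (by decide)
    rw [k5] at a1
    have a2 := min_le_right (r (X ∪ g '' (↑({5} : Finset (Fin 6)) : Set (Fin 6))) + 1)
      (r (X ∪ g '' (↑({5} : Finset (Fin 6)) : Set (Fin 6)) ∪ F))
    have a3 : X ∪ g '' (↑({5} : Finset (Fin 6)) : Set (Fin 6)) ∪ F = insert e (X ∪ F) := by
      rw [Finset.coe_singleton, Set.image_singleton, Set.union_singleton, hg, Set.insert_union]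
    rw [a3, he] at a2
    rw [a3, he] at a1
    linarith
  obtain ⟨p, hpF, hp⟩ := h.exists_aug (Y := X) (F := F) (by linarith)
  have hbig : ∀ S : Finset (Fin 6), (5 : Fin 6) ∉ S → kap S = 2 → kap (insert 5 S) = 2 →
      r (X ∪ g '' (↑(insert 5 S) : Set (Fin 6)) ∪ F) ≤ r X + 2 := by
    intro S hS k1 k2
    have a1 := h1 (insert 5 S) (Finset.mem_insert_self _ _)
    have a2 : r (X ∪ g '' (↑(insert 5 S) : Set (Fin 6))) = r X + 2 := by
      rw [hins, he, h0 S hS, k1]
    rw [a2, k2] at a1
    rcases min_cases (r X + 2 + 1) (r (X ∪ g '' (↑(insert 5 S) : Set (Fin 6)) ∪ F)) with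
      ⟨e1, _⟩ | ⟨e1, _⟩
    · rw [e1] at a1; linarith
    · rw [e1] at a1; linarith
  have b13 := hbig {1, 3} (by decide) (by decide) (by decide)
  have b24 := hbig {2, 4} (by decide) (by decide) (by decide)
  have e13 : (insert 5 {1, 3} : Finset (Fin 6)) = {1, 3, 5} := by decide
  have e24 : (insert 5 {2, 4} : Finset (Fin 6)) = {2, 4, 5} := by decide
  have hg' : ∀ i : Fin 6, i ≠ 5 → Function.update g 5 p i = g i := fun i hi =>
    Function.update_of_ne hi _ _
  have hg5 : Function.update g 5 p 5 = p := Function.update_self _ _ _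
  have himg : ∀ S : Finset (Fin 6), (5 : Fin 6) ∉ S →
      Function.update g 5 p '' (↑S : Set (Fin 6)) = g '' (↑S : Set (Fin 6)) := by
    intro S hS
    apply Set.image_congr
    intro i hi
    exact hg' i (by rintro rfl; exact hS hi)
  have hlow : ∀ (x : Fin 6) (S : Finset (Fin 6)), x ≠ 5 → (5 : Fin 6) ∉ S → kap (insert x S) = 3 →
      r (X ∪ g '' (↑(insert 5 S) : Set (Fin 6)) ∪ F) ≤ r X + 2 →
      r X + 2 ≤ r (X ∪ Function.update g 5 p '' (↑({x, 5} : Finset (Fin 6)) : Set (Fin 6))) := by
    intro x S hx hS k hb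
    have a1 := h0 (insert x S) (by
      rw [Finset.mem_insert]
      rintro (hh | hh)
      · exact hx hh.symm
      · exact hS hh)
    rw [k] at a1
    have a2 := h.union_le
      (A := X ∪ Function.update g 5 p '' (↑({x, 5} : Finset (Fin 6)) : Set (Fin 6)))
      (B := X ∪ g '' (↑(insert 5 S) : Set (Fin 6)) ∪ F)
      (C := X ∪ g '' (↑(insert x S) : Set (Fin 6))) (D := insert p X)
      (by
        rintro z (hz | ⟨i, hi, rfl⟩)
        · exact Or.inl (Or.inl hz)
        · rw [Finset.mem_coe, Finset.mem_insert] at hi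
          rcases hi with rfl | hi
          · exact Or.inl (Or.inr ⟨i, by simp, hg' i hx⟩)
          · exact Or.inr (Or.inl (Or.inr ⟨i, by simp [hi], rfl⟩)))
      (by
        rintro z (rfl | hz)
        · exact ⟨Or.inr ⟨5, by simp, hg5⟩, Or.inr hpF⟩
        · exact ⟨Or.inl hz, Or.inl (Or.inl hz)⟩)
    linarith
  refine hasK4_of h X (Function.update g 5 p) ?_ ?_ ?_
  · intro P hP hPo
    by_cases hm : (5 : Fin 6) ∈ P
    · rcases fact_p5' P hP hPo hm with (rfl | rfl) | (rfl | rfl)
      · exact hlow 1 {2, 4} (by decide) (by decide) (by decide) b24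
      · exact hlow 3 {2, 4} (by decide) (by decide) (by decide) b24
      · exact hlow 2 {1, 3} (by decide) (by decide) (by decide) b13
      · exact hlow 4 {1, 3} (by decide) (by decide) (by decide) b13
    · rw [himg P hm, h0 P hm, kap_pair P hP]
  · intro L hL
    have hyes : ∀ L : Finset (Fin 6), (5 : Fin 6) ∈ L →
        r (X ∪ Function.update g 5 p '' L) ≤ r (X ∪ g '' L ∪ F) := by
      intro L hL
      apply h.mono
      rintro x (hx | ⟨i, hi, rfl⟩)
      · exact Or.inl (Or.inl hx)
      · by_cases h5i : i = 5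
        · subst h5i
          rw [hg5]
          exact Or.inr hpF
        · rw [hg' i h5i]
          exact Or.inl (Or.inr ⟨i, hi, rfl⟩)
    by_cases hm : (5 : Fin 6) ∈ L
    · refine (hyes L hm).trans ?_
      simp only [lines, Finset.mem_insert, Finset.mem_singleton] at hL
      rcases hL with rfl | rfl | rfl | rfl
      · exact absurd hm (by decide)
      · exact absurd hm (by decide)
      · rw [e13] at b13; exact b13
      · rw [e24] at b24; exact b24
    · rw [himg L hm, h0 L hm, kap_line L hL]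
  · have a1 := h0 {0, 1, 2, 3, 4} (by decide)
    have k1 : kap {0, 1, 2, 3, 4} = 3 := by decide
    rw [k1] at a1
    have : r (X ∪ g '' (↑({0, 1, 2, 3, 4} : Finset (Fin 6)) : Set (Fin 6))) ≤
        r (X ∪ Function.update g 5 p '' (↑(Finset.univ : Finset (Fin 6)) : Set (Fin 6))) := by
      apply h.mono
      rw [← himg _ (show (5 : Fin 6) ∉ ({0, 1, 2, 3, 4} : Finset (Fin 6)) by decide)]
      exact Set.union_subset_union_right X (Set.image_mono
        (Finset.coe_subset.mpr (Finset.subset_univ _)))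
    linarith

theorem auto5 : ∀ i : Fin 6, i ≠ 5 → ∃ σ : Fin 6 → Fin 6, σ 5 = i ∧ (∀ j, j ≠ 5 → σ j ≠ i) ∧
    ∀ S : Finset (Fin 6), kap (S.image σ) = kap S := by
  intro i hi
  fin_cases i
  · exact ⟨![5, 1, 3, 2, 4, 0], by decide, by decide, by decide⟩
  · exact ⟨![4, 0, 3, 2, 5, 1], by decide, by decide, by decide⟩
  · exact ⟨![3, 0, 4, 1, 5, 2], by decide, by decide, by decide⟩
  · exact ⟨![2, 0, 1, 4, 5, 3], by decide, by decide, by decide⟩
  · exact ⟨![1, 0, 2, 3, 5, 4], by decide, by decide, by decide⟩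
  · exact absurd rfl hi

theorem kap_two_ne : ∀ i j : Fin 6, i ≠ j → kap {i, j} = 2 ∧ kap {i} = 1 := by decide

/-- A principal extension has no new `M(K₄)`-minor. -/
theorem hasK4_of_pext [Finite U] {r : Set U → ℤ} (h : IsRk r) {e : U} {F : Set U}
    (he : ∀ S, r (insert e S) = r S) (hk : HasK4 (pext r e F)) : HasK4 r := by
  obtain ⟨X, g, heq⟩ := hk
  by_cases heX : e ∈ X
  · have hXS : ∀ S : Finset (Fin 6), pext r e F (X ∪ g '' S) =
        min (r (X ∪ g '' S) + 1) (r (X ∪ g '' S ∪ F)) := fun S =>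
      pext_mem (show e ∈ X ∪ g '' S from Or.inl heX)
    have hX : pext r e F X = min (r X + 1) (r (X ∪ F)) := pext_mem heX
    have hsm : ∀ S : Finset (Fin 6), r (X ∪ g '' S ∪ F) + r X ≤ r (X ∪ g '' S) + r (X ∪ F) := by
      intro S
      apply h.union_le
      · rintro x ((hx | hx) | hx)
        · exact Or.inl (Or.inl hx)
        · exact Or.inl (Or.inr hx)
        · exact Or.inr (Or.inr hx)
      · exact fun x hx => ⟨Or.inl hx, Or.inl hx⟩
    rcases lt_or_ge (r X) (r (X ∪ F)) with hlt | hle
    · have hX' : pext r e F X = r X + 1 := by rw [hX]; exact min_eq_left (by linarith)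
      have hc : Cfg r F X g := ⟨fun S => by rw [← hXS, heq, hX']⟩
      rcases lt_or_ge (r X + 1) (r (X ∪ F)) with hlt2 | hle2
      · exact hc.main h (by linarith)
      · have hF1 : r (X ∪ F) = r X + 1 := le_antisymm hle2 (by linarith)
        obtain ⟨p, hpF, hp⟩ := h.exists_aug (Y := X) (F := F) hlt
        refine ⟨insert p X, g, fun S => ?_⟩
        have a1 : r (insert p X ∪ g '' S) ≤ r (X ∪ g '' S ∪ F) := by
          apply h.mono
          rintro x ((rfl | hx) | hx)
          · exact Or.inr hpF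
          · exact Or.inl (Or.inl hx)
          · exact Or.inl (Or.inr hx)
        have a2 : r (X ∪ g '' S ∪ F) + r (insert p X) ≤ r (insert p X ∪ g '' S) + r (X ∪ F) := by
          apply h.union_le
          · rintro x ((hx | hx) | hx)
            · exact Or.inl (Or.inl (Set.mem_insert_of_mem _ hx))
            · exact Or.inl (Or.inr hx)
            · exact Or.inr (Or.inr hx)
          · rintro x (rfl | hx)
            · exact ⟨Or.inl (Set.mem_insert _ _), Or.inr hpF⟩
            · exact ⟨Or.inl (Set.mem_insert_of_mem _ hx), Or.inl hx⟩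
        have a3 := hc.eq S
        rw [min_eq_right (by have := hsm S; linarith)] at a3
        linarith
    · have hmX : r X ≤ r (X ∪ F) := h.mono Set.subset_union_left
      have hX' : pext r e F X = r X := by rw [hX, min_eq_right (by linarith)]; linarith
      refine ⟨X, g, fun S => ?_⟩
      have a1 := heq S
      rw [hXS, hX'] at a1
      have a2 := hsm S
      have a3 : r (X ∪ g '' S) ≤ r (X ∪ g '' S ∪ F) := h.mono Set.subset_union_left
      rw [min_eq_right (by linarith)] at a1
      linarith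
  · have hinj : ∀ i j, i ≠ j → g i ≠ g j := by
      intro i j hij hgij
      obtain ⟨k1, k2⟩ := kap_two_ne i j hij
      have a1 := heq {i, j}
      have a2 := heq {i}
      have a3 : g '' (↑({i, j} : Finset (Fin 6)) : Set (Fin 6)) =
          g '' (↑({i} : Finset (Fin 6)) : Set (Fin 6)) := by
        simp [Set.image_insert_eq, hgij]
      rw [a3, a2, k1, k2] at a1
      linarith
    by_cases hex : ∃ i, g i = e
    · obtain ⟨i, hi⟩ := hex
      by_cases hi5 : i = 5
      · subst hi5
        exact caseC h he heX hi (fun j hj hje => hinj j 5 hj (hje.trans hi.symm)) heq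
      · obtain ⟨σ, hσ5, hσne, hσ⟩ := auto5 i hi5
        refine caseC (g := g ∘ σ) h he heX (by show g (σ 5) = e; rw [hσ5, hi])
          (fun j hj hje => hinj (σ j) i (hσne j hj) (hje.trans hi.symm)) (F := F) ?_
        intro S
        rw [comp_image, heq, hσ]
    · push Not at hex
      refine ⟨X, g, fun S => ?_⟩
      have a1 := heq S
      rwa [pext_notMem heX, pext_notMem] at a1
      rintro (hx | ⟨i, _, hie⟩)
      · exact heX hx
      · exact hex i hie

end Pool.Agent.H863.K4
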